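import Mathlib

/-!
Polygonal numbers and universal pairs.
-/

namespace Pool.Agent.P.MP_2ce53a_nt

/-- The `m`-gonal number with argument `x`. -/
def polyg (m x : ℕ) : ℤ := (((m : ℤ) - 2) * (x : ℤ) ^ 2 - ((m : ℤ) - 4) * x) / 2

/-- The generalized pentagonal number with argument `z`. -/
def genPent (z : ℤ) : ℤ := (3 * z ^ 2 - z) / 2

/-- Every natural number is a generalized pentagonal number plus a `j`-gonal number plus a
`k`-gonal number, the last two with nonnegative arguments. -/
def Universal (j k : ℕ) : Prop :=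
  ∀ n : ℕ, ∃ (z : ℤ) (x y : ℕ), (n : ℤ) = genPent z + polyg j x + polyg k y

end Pool.Agent.P.MP_2ce53a_nt
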