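import Mathlib
import Pool.Agent.P.MP_2ce53a_nt.Defs

/-!
Integer vectors, ternary forms and their rational isometries.
-/

namespace Pool.Agent.P.MP_2ce53a_nt

/-- Integer vectors. -/
@[ext] structure V where
  x : ℤ
  y : ℤ
  z : ℤ

/-- Integer matrices, by rows. -/
@[ext] structure M where
  a : V
  b : V
  c : V

def dot (u v : V) : ℤ := u.x * v.x + u.y * v.y + u.z * v.z
def mv (A : M) (v : V) : V := ⟨dot A.a v, dot A.b v, dot A.c v⟩
def tr (A : M) : M := ⟨⟨A.a.x, A.b.x, A.c.x⟩, ⟨A.a.y, A.b.y, A.c.y⟩, ⟨A.a.z, A.b.z, A.c.z⟩⟩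
def mm (A B : M) : M := tr ⟨mv A (tr B).a, mv A (tr B).b, mv A (tr B).c⟩
def sm (d : ℤ) (v : V) : V := ⟨d * v.x, d * v.y, d * v.z⟩
def det3 (a b c : V) : ℤ :=
  a.x * (b.y * c.z - b.z * c.y) + a.y * (b.z * c.x - b.x * c.z) + a.z * (b.x * c.y - b.y * c.x)
def idM : M := ⟨⟨1, 0, 0⟩, ⟨0, 1, 0⟩, ⟨0, 0, 1⟩⟩

/-- Coefficients of a ternary form. -/
structure F where
  a : ℕ
  b : ℕ
  c : ℕ
  d : ℕ
  e : ℕ
  f : ℕ

def F.Q (q : F) (v : V) : ℤ :=
  q.a * v.x ^ 2 + q.b * v.y ^ 2 + q.c * v.z ^ 2 + q.d * (v.y * v.z) + q.e * (v.x * v.z) +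
    q.f * (v.x * v.y)

def F.B (q : F) (u v : V) : ℤ :=
  2 * q.a * (u.x * v.x) + 2 * q.b * (u.y * v.y) + 2 * q.c * (u.z * v.z) +
    q.d * (u.y * v.z + u.z * v.y) + q.e * (u.x * v.z + u.z * v.x) + q.f * (u.x * v.y + u.y * v.x)

def F.disc (q : F) : ℤ :=
  8 * q.a * q.b * q.c + 2 * q.d * q.e * q.f - 2 * q.a * q.d ^ 2 - 2 * q.b * q.e ^ 2 -
    2 * q.c * q.f ^ 2

/-- The form is positive with small coefficients. -/
def F.Pos (q : F) : Prop :=
  q.a ≤ 2 ∧ q.b ≤ 2 ∧ q.c ≤ 2 ∧ ∀ v : V, v.x ^ 2 ≤ 2 * q.Q v ∧ v.y ^ 2 ≤ 2 * q.Q v ∧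
    v.z ^ 2 ≤ 2 * q.Q v

/-- `A / d` is an isometry of the form. -/
def Iso (q : F) (A : M) (d : ℤ) : Prop := ∀ u v, q.B (mv A u) (mv A v) = d ^ 2 * q.B u v

lemma mv_mm (A B : M) (v : V) : mv (mm A B) v = mv A (mv B v) := by
  ext <;> simp only [mv, mm, tr, dot] <;> ring

lemma mv_sm (A : M) (d : ℤ) (v : V) : mv A (sm d v) = sm d (mv A v) := by
  ext <;> simp only [mv, sm, dot] <;> ring

lemma sm_sm (d e : ℤ) (v : V) : sm d (sm e v) = sm (d * e) v := by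
  ext <;> simp only [sm] <;> ring

lemma mv_id (v : V) : mv idM v = v := by
  ext <;> simp [mv, idM, dot]

lemma sm_one (v : V) : sm 1 v = v := by
  ext <;> simp [sm]

lemma dot_tr (A : M) (u v : V) : dot (mv (tr A) u) v = dot u (mv A v) := by
  simp only [mv, tr, dot]; ring

lemma B_self (q : F) (v : V) : q.B v v = 2 * q.Q v := by
  simp only [F.B, F.Q]; ring

lemma Iso.id (q : F) : Iso q idM 1 := fun u v => by simp [mv_id]

lemma Iso.mul {q : F} {A B : M} {d e : ℤ} (h : Iso q A d) (h' : Iso q B e) :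
    Iso q (mm A B) (e * d) := fun u v => by
  rw [mv_mm, mv_mm, h, h']; ring

lemma Iso.Q {q : F} {A : M} {d : ℤ} (h : Iso q A d) (v : V) : q.Q (mv A v) = d ^ 2 * q.Q v := by
  have := h v v
  rw [B_self, B_self] at this
  linarith

lemma Q_sm (q : F) (d : ℤ) (v : V) : q.Q (sm d v) = d ^ 2 * q.Q v := by
  simp only [F.Q, sm]; ring

lemma Iso.Q_eq {q : F} {A : M} {d : ℤ} (h : Iso q A d) (hd : d ≠ 0) {v w : V}
    (e : sm d w = mv A v) : q.Q w = q.Q v := by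
  have := h.Q v
  rw [← e, Q_sm] at this
  exact mul_left_cancel₀ (pow_ne_zero 2 hd) this

/-- All entries are at most `b` in absolute value. -/
def Bd (b : ℤ) (v : V) : Prop := |v.x| ≤ b ∧ |v.y| ≤ b ∧ |v.z| ≤ b

lemma Iso.bd {q : F} (hq : q.Pos) {A : M} {d : ℤ} (h : Iso q A d) (hd : 0 ≤ d) :
    Bd (2 * d) (tr A).a ∧ Bd (2 * d) (tr A).b ∧ Bd (2 * d) (tr A).c := by
  obtain ⟨ha, hb, hc, hv⟩ := hq
  have key : ∀ (v : V) (t : ℤ), t ≤ 2 → q.Q v = d ^ 2 * t → Bd (2 * d) v := by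
    intro v t ht e
    obtain ⟨h1, h2, h3⟩ := hv v
    have h4 : 2 * q.Q v ≤ (2 * d) ^ 2 := by rw [e]; nlinarith [sq_nonneg d]
    exact ⟨abs_le_of_sq_le_sq' (h1.trans h4) (by omega) |> abs_le.2,
      abs_le_of_sq_le_sq' (h2.trans h4) (by omega) |> abs_le.2,
      abs_le_of_sq_le_sq' (h3.trans h4) (by omega) |> abs_le.2⟩
  refine ⟨key _ q.a (by exact_mod_cast ha) ?_, key _ q.b (by exact_mod_cast hb) ?_,
    key _ q.c (by exact_mod_cast hc) ?_⟩
  · have := h.Q ⟨1, 0, 0⟩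
    simpa [mv, dot, tr, F.Q] using this
  · have := h.Q ⟨0, 1, 0⟩
    simpa [mv, dot, tr, F.Q] using this
  · have := h.Q ⟨0, 0, 1⟩
    simpa [mv, dot, tr, F.Q] using this

/-- `l` divides all entries. -/
def Dv (l : ℤ) (v : V) : Prop := l ∣ v.x ∧ l ∣ v.y ∧ l ∣ v.z

/-- No prime outside the level divides the vector. -/
def Prim (W : ℕ) (v : V) : Prop := ∀ l : ℕ, l.Prime → ¬ l ∣ W → ¬ Dv l v

lemma Dv.B {q : F} {l : ℤ} {v : V} (h : Dv l v) (u : V) : l ∣ q.B u v := by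
  obtain ⟨⟨a, ha⟩, ⟨b, hb⟩, ⟨c, hc⟩⟩ := h
  exact ⟨q.B u ⟨a, b, c⟩, by simp only [F.B, ha, hb, hc]; ring⟩

lemma Dv.of_B {q : F} {l : ℤ} (hl : Prime l) (hd : ¬ l ∣ q.disc) {v : V}
    (h : ∀ u, l ∣ q.B u v) : Dv l v := by
  have h1 : q.disc * v.x = q.B ⟨4 * q.b * q.c - q.d ^ 2, q.d * q.e - 2 * q.c * q.f,
      q.d * q.f - 2 * q.b * q.e⟩ v := by simp only [F.disc, F.B]; ring
  have h2 : q.disc * v.y = q.B ⟨q.d * q.e - 2 * q.c * q.f, 4 * q.a * q.c - q.e ^ 2,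
      q.e * q.f - 2 * q.a * q.d⟩ v := by simp only [F.disc, F.B]; ring
  have h3 : q.disc * v.z = q.B ⟨q.d * q.f - 2 * q.b * q.e, q.e * q.f - 2 * q.a * q.d,
      4 * q.a * q.b - q.f ^ 2⟩ v := by simp only [F.disc, F.B]; ring
  exact ⟨(hl.dvd_or_dvd (h1 ▸ h _)).resolve_left hd, (hl.dvd_or_dvd (h2 ▸ h _)).resolve_left hd,
    (hl.dvd_or_dvd (h3 ▸ h _)).resolve_left hd⟩

lemma B_sm (q : F) (d : ℤ) (u v : V) : q.B u (sm d v) = d * q.B u v := by
  simp only [F.B, sm]; ring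

lemma Iso.dv {q : F} {A : M} {d l : ℤ} (h : Iso q A d) (hd : d ≠ 0) (hl : Prime l)
    (h1 : ¬ l ∣ q.disc) (h2 : ¬ l ∣ d) {v w : V} (e : sm d w = mv A v) (hw : Dv l w) :
    Dv l v := by
  refine Dv.of_B hl h1 fun u => ?_
  have h3 := h u v
  rw [← e, B_sm, sq, mul_assoc] at h3
  have h4 := mul_left_cancel₀ hd h3
  exact (hl.dvd_or_dvd (h4 ▸ hw.B _)).resolve_left h2

lemma Iso.prim {q : F} {A : M} {d W : ℕ} (h : Iso q A d) (hW : W ≠ 0) (hd : d ∣ W)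
    (hq : q.disc ∣ W) {v w : V} (e : sm d w = mv A v) (hv : Prim W v) : Prim W w := by
  intro l hl hlW hw
  have hd0 : (d : ℤ) ≠ 0 := by
    rintro h0
    have : d = 0 := by exact_mod_cast h0
    subst this
    exact hW (by simpa using hd)
  refine hv l hl hlW (h.dv hd0 (Nat.prime_iff_prime_int.mp hl) (fun c => hlW ?_)
    (fun c => hlW ?_) e hw)
  · exact_mod_cast c.trans hq
  · exact (Int.natCast_dvd_natCast.mp c).trans hd

lemma farkas_id (a b c d v : V) :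
    det3 b c d * dot a v + det3 c a d * dot b v + det3 a b d * dot c v + det3 b a c * dot d v
      = 0 := by
  simp only [det3, dot]; ring

lemma det3_bd {b : ℤ} {u v w : V} (hu : Bd b u) (hv : Bd b v) (hw : Bd b w) :
    |det3 u v w| ≤ 6 * b ^ 3 := by
  have hb : 0 ≤ b := (abs_nonneg _).trans hu.1
  have key : ∀ x y z : ℤ, |x| ≤ b → |y| ≤ b → |z| ≤ b → |x * (y * z)| ≤ b ^ 3 := by
    intro x y z hx hy hz
    rw [abs_mul, abs_mul, show b ^ 3 = b * (b * b) by ring]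
    exact mul_le_mul hx (mul_le_mul hy hz (abs_nonneg _) hb) (by positivity) hb
  obtain ⟨u1, u2, u3⟩ := hu
  obtain ⟨v1, v2, v3⟩ := hv
  obtain ⟨w1, w2, w3⟩ := hw
  have k1 := abs_le.1 (key _ _ _ u1 v2 w3)
  have k2 := abs_le.1 (key _ _ _ u1 v3 w2)
  have k3 := abs_le.1 (key _ _ _ u2 v3 w1)
  have k4 := abs_le.1 (key _ _ _ u2 v1 w3)
  have k5 := abs_le.1 (key _ _ _ u3 v1 w2)
  have k6 := abs_le.1 (key _ _ _ u3 v2 w1)
  rw [abs_le]
  simp only [det3, mul_sub]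
  constructor <;> linarith [k1.1, k1.2, k2.1, k2.2, k3.1, k3.2, k4.1, k4.2, k5.1, k5.2, k6.1, k6.2]

lemma dot_bd {a b : ℤ} {u v : V} (hu : Bd a u) (hv : Bd b v) : |dot u v| ≤ 3 * a * b := by
  have ha : 0 ≤ a := (abs_nonneg _).trans hu.1
  have key : ∀ x y : ℤ, |x| ≤ a → |y| ≤ b → |x * y| ≤ a * b := fun x y hx hy => by
    rw [abs_mul]; exact mul_le_mul hx hy (abs_nonneg _) ha
  have k1 := abs_le.1 (key _ _ hu.1 hv.1)
  have k2 := abs_le.1 (key _ _ hu.2.1 hv.2.1)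
  have k3 := abs_le.1 (key _ _ hu.2.2 hv.2.2)
  rw [abs_le]
  simp only [dot]
  constructor <;> linarith [k1.1, k1.2, k2.1, k2.2, k3.1, k3.2]

/-- Scalar matrix subtraction: `A - t`. -/
def subS (A : M) (t : ℤ) : M :=
  ⟨⟨A.a.x - t, A.a.y, A.a.z⟩, ⟨A.b.x, A.b.y - t, A.b.z⟩, ⟨A.c.x, A.c.y, A.c.z - t⟩⟩

def vsub (u v : V) : V := ⟨u.x - v.x, u.y - v.y, u.z - v.z⟩

lemma mv_subS (A : M) (t : ℤ) (v : V) : mv (subS A t) v = vsub (mv A v) (sm t v) := by
  ext <;> simp only [mv, subS, vsub, sm, dot] <;> ring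

/-- A set of vectors of one norm that a rotation of infinite order maps to itself contains a
vector on the axis. -/
theorem axis_of_closed {q : F} (hq : q.Pos) {A : M} {d ε τ T : ℤ} (hd : 2 ≤ d)
    (hε : ε = 1 ∨ ε = -1) (hc : IsCoprime d τ)
    (hch : mm (subS (mm A (subS A τ)) (-d ^ 2)) (subS A (ε * d)) = ⟨⟨0, 0, 0⟩, ⟨0, 0, 0⟩, ⟨0, 0, 0⟩⟩)
    (S : V → Prop) (hT : ∀ v, S v → q.Q v = T) (hS : ∀ v, S v → ∃ w, S w ∧ sm d w = mv A v)
    {v0 : V} (h0 : S v0) : ∃ v, S v ∧ mv (subS A (ε * d)) v = ⟨0, 0, 0⟩ := by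
  choose! f hf1 hf2 using hS
  have hd0 : d ≠ 0 := by omega
  let u : V → V := fun v => vsub (f v) (sm ε v)
  have hu : ∀ v, S v → sm d (u v) = mv (subS A (ε * d)) v := by
    intro v hv
    rw [mv_subS, ← hf2 v hv]
    ext <;> simp only [u, sm, vsub] <;> ring
  have hAu : ∀ v, S v → sm d (u (f v)) = mv A (u v) := by
    intro v hv
    have h1 := hf2 v hv
    have h2 := hf2 _ (hf1 v hv)
    have e : mv A (u v) = vsub (mv A (f v)) (sm ε (mv A v)) := by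
      ext <;> simp only [u, sm, vsub, mv, dot] <;> ring
    rw [e, ← h1, ← h2]
    ext <;> simp only [u, sm, vsub] <;> ring
  have hrec : ∀ v, S v → sm τ (u (f v)) = sm d (vsub (u (f (f v))) (sm (-1) (u v))) := by
    intro v hv
    have h1 := hAu v hv
    have h2 := hAu _ (hf1 v hv)
    have h3 := congrArg (fun N => mv N v) hch
    simp only [mv_mm] at h3
    rw [← hu v hv, mv_subS, mv_mm, mv_subS, mv_sm, ← h1] at h3
    have e : mv A (vsub (sm d (sm d (u (f v)))) (sm τ (sm d (u v)))) =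
        vsub (sm d (sm d (mv A (u (f v))))) (sm τ (sm d (mv A (u v)))) := by
      ext <;> simp only [sm, vsub, mv, dot] <;> ring
    rw [e, ← h1, ← h2] at h3
    have hd2 : d ^ 2 ≠ 0 := pow_ne_zero 2 hd0
    have hx := congrArg V.x h3
    have hy := congrArg V.y h3
    have hz := congrArg V.z h3
    simp only [sm, vsub, mv, dot] at hx hy hz
    ext <;> simp only [sm, vsub] <;> apply mul_left_cancel₀ hd2
    · linear_combination -hx
    · linear_combination -hy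
    · linear_combination -hz
  have hSn : ∀ n v, S v → S (f^[n] v) := by
    intro n
    induction n with
    | zero => exact fun v h => h
    | succ n ih => exact fun v h => by rw [Function.iterate_succ_apply]; exact ih _ (hf1 v h)
  have hdiv : ∀ e : ℕ, ∀ v, S v → Dv (d ^ e) (u (f^[e] v)) := by
    intro e
    induction e with
    | zero => intro v _; simp [Dv]
    | succ e ih =>
      intro v hv
      have h1 := ih v hv
      have h2 := ih _ (hf1 _ (hf1 v hv))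
      have h3 := hrec _ (hSn e v hv)
      have e1 : f^[e] (f (f v)) = f (f (f^[e] v)) := by
        rw [← Function.iterate_succ_apply, ← Function.iterate_succ_apply,
          Function.iterate_succ_apply', Function.iterate_succ_apply']
      rw [e1] at h2
      rw [Function.iterate_succ_apply']
      have hc' : IsCoprime (d ^ (e + 1)) τ := hc.pow_left
      have hx := congrArg V.x h3
      have hy := congrArg V.y h3
      have hz := congrArg V.z h3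
      simp only [sm, vsub] at hx hy hz
      refine ⟨hc'.dvd_of_dvd_mul_left ?_, hc'.dvd_of_dvd_mul_left ?_,
        hc'.dvd_of_dvd_mul_left ?_⟩
      · rw [hx, pow_succ']; exact mul_dvd_mul_left _ (dvd_sub h2.1 (h1.1.mul_left _))
      · rw [hy, pow_succ']; exact mul_dvd_mul_left _ (dvd_sub h2.2.1 (h1.2.1.mul_left _))
      · rw [hz, pow_succ']; exact mul_dvd_mul_left _ (dvd_sub h2.2.2 (h1.2.2.mul_left _))
  obtain ⟨e, he⟩ : ∃ e : ℕ, 4 * T + 2 < d ^ e := by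
    refine ⟨(4 * T + 2).toNat, ?_⟩
    have h1 : ((4 * T + 2).toNat : ℤ) < 2 ^ (4 * T + 2).toNat := by
      exact_mod_cast Nat.lt_two_pow_self
    have h2 : (2 : ℤ) ^ (4 * T + 2).toNat ≤ d ^ (4 * T + 2).toNat :=
      pow_le_pow_left₀ (by norm_num) hd _
    have := Int.self_le_toNat (4 * T + 2)
    omega
  have hv := hSn e v0 h0
  refine ⟨_, hv, ?_⟩
  rw [← hu _ hv]
  obtain ⟨a1, a2, a3⟩ := hq.2.2.2 (f^[e] v0)
  obtain ⟨b1, b2, b3⟩ := hq.2.2.2 (f (f^[e] v0))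
  rw [hT _ hv] at a1 a2 a3
  rw [hT _ (hf1 _ hv)] at b1 b2 b3
  have key : ∀ x y : ℤ, x ^ 2 ≤ 2 * T → y ^ 2 ≤ 2 * T → d ^ e ∣ y - ε * x → y - ε * x = 0 := by
    intro x y hx hy h
    refine Int.eq_zero_of_abs_lt_dvd h ?_
    have h1 : |x| ≤ 2 * T + 1 := by rw [abs_le]; constructor <;> nlinarith
    have h2 : |y| ≤ 2 * T + 1 := by rw [abs_le]; constructor <;> nlinarith
    rw [abs_le] at h1 h2
    rw [abs_lt]
    rcases hε with rfl | rfl <;> constructor <;> linarith [h1.1, h1.2, h2.1, h2.2]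
  obtain ⟨c1, c2, c3⟩ := hdiv e v0 h0
  have d1 := key _ _ a1 b1 c1
  have d2 := key _ _ a2 b2 c2
  have d3 := key _ _ a3 b3 c3
  ext <;> simp only [u, sm, vsub]
  · rw [d1, mul_zero]
  · rw [d2, mul_zero]
  · rw [d3, mul_zero]

end Pool.Agent.P.MP_2ce53a_nt
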