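import Mathlib
import Pool.Agent.P.MP_2ce53a_nt.Lin

/-!
Residues modulo a fixed number, computed with natural numbers, and lookup tables.
-/

namespace Pool.Agent.P.MP_2ce53a_nt

structure VN where
  x : ℕ
  y : ℕ
  z : ℕ

structure MN where
  a : VN
  b : VN
  c : VN

/-- Force the evaluation of a number before passing it on. -/
noncomputable def fN (n : ℕ) (k : ℕ → Bool) : Bool := Nat.rec false (fun m _ => k m) (Nat.succ n)

lemma fN_eq (n : ℕ) (k : ℕ → Bool) : fN n k = k n := rfl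

noncomputable def andB (a b : Bool) : Bool := Bool.rec false b a

lemma andB_iff (a b : Bool) : andB a b = true ↔ a = true ∧ b = true := by
  cases a <;> simp [andB]

def dvB (m n : ℕ) : Bool := Nat.beq (Nat.mod n m) 0

lemma dvB_iff (m n : ℕ) : dvB m n = true ↔ m ∣ n := by
  rw [dvB, Nat.beq_eq, Nat.dvd_iff_mod_eq_zero]
  rfl

def dN (u v : VN) : ℕ := Nat.add (Nat.add (Nat.mul u.x v.x) (Nat.mul u.y v.y)) (Nat.mul u.z v.z)

noncomputable def fV (W a b c : ℕ) (k : VN → Bool) : Bool :=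
  fN (Nat.mod a W) fun x => fN (Nat.mod b W) fun y => fN (Nat.mod c W) fun z => k ⟨x, y, z⟩

lemma fV_eq (W a b c : ℕ) (k : VN → Bool) : fV W a b c k = k ⟨a % W, b % W, c % W⟩ := rfl

noncomputable def mvK (W : ℕ) (A : MN) (v : VN) (k : VN → Bool) : Bool :=
  fV W (dN A.a v) (dN A.b v) (dN A.c v) k

def mvN (W : ℕ) (A : MN) (v : VN) : VN := ⟨dN A.a v % W, dN A.b v % W, dN A.c v % W⟩

lemma mvK_eq (W : ℕ) (A : MN) (v : VN) (k : VN → Bool) : mvK W A v k = k (mvN W A v) := rfl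

/-- The columns of `A * B` from the rows of `A` and the columns of `B`. -/
noncomputable def mcK (W : ℕ) (A B : MN) (k : MN → Bool) : Bool :=
  mvK W A B.a fun a => mvK W A B.b fun b => mvK W A B.c fun c => k ⟨a, b, c⟩

def mcN (W : ℕ) (A B : MN) : MN := ⟨mvN W A B.a, mvN W A B.b, mvN W A B.c⟩

lemma mcK_eq (W : ℕ) (A B : MN) (k : MN → Bool) : mcK W A B k = k (mcN W A B) := rfl

/-- `s u + t v`. -/
noncomputable def lcK (W s : ℕ) (u : VN) (t : ℕ) (v : VN) (k : VN → Bool) : Bool :=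
  fV W (Nat.add (Nat.mul s u.x) (Nat.mul t v.x)) (Nat.add (Nat.mul s u.y) (Nat.mul t v.y))
    (Nat.add (Nat.mul s u.z) (Nat.mul t v.z)) k

def lcN (W s : ℕ) (u : VN) (t : ℕ) (v : VN) : VN :=
  ⟨(s * u.x + t * v.x) % W, (s * u.y + t * v.y) % W, (s * u.z + t * v.z) % W⟩

lemma lcK_eq (W s : ℕ) (u : VN) (t : ℕ) (v : VN) (k : VN → Bool) :
    lcK W s u t v k = k (lcN W s u t v) := rfl

def trN (A : MN) : MN := ⟨⟨A.a.x, A.b.x, A.c.x⟩, ⟨A.a.y, A.b.y, A.c.y⟩, ⟨A.a.z, A.b.z, A.c.z⟩⟩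

def idN : MN := ⟨⟨1, 0, 0⟩, ⟨0, 1, 0⟩, ⟨0, 0, 1⟩⟩

/-- The determinant, with `W1` standing for `-1`. -/
def detN (W W1 : ℕ) (a b c : VN) : ℕ :=
  Nat.mod (Nat.add (Nat.add (Nat.add (Nat.mul a.x (Nat.mul b.y c.z)) (Nat.mul a.y (Nat.mul b.z c.x)))
    (Nat.mul a.z (Nat.mul b.x c.y))) (Nat.mul W1 (Nat.add (Nat.add (Nat.mul a.x (Nat.mul b.z c.y))
    (Nat.mul a.y (Nat.mul b.x c.z))) (Nat.mul a.z (Nat.mul b.y c.x))))) W

def Cg (W : ℕ) (n : VN) (v : V) : Prop :=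
  (n.x : ℤ) ≡ v.x [ZMOD W] ∧ (n.y : ℤ) ≡ v.y [ZMOD W] ∧ (n.z : ℤ) ≡ v.z [ZMOD W]

def CgM (W : ℕ) (n : MN) (A : M) : Prop := Cg W n.a A.a ∧ Cg W n.b A.b ∧ Cg W n.c A.c

lemma mod_cg (W a : ℕ) {b : ℤ} (h : (a : ℤ) ≡ b [ZMOD W]) : ((a % W : ℕ) : ℤ) ≡ b [ZMOD W] := by
  rw [Int.natCast_mod]
  exact (Int.mod_modEq _ _).trans h

lemma dN_cg {W : ℕ} {n m : VN} {u v : V} (h : Cg W n u) (h' : Cg W m v) :
    (dN n m : ℤ) ≡ dot u v [ZMOD W] := by
  have e : (dN n m : ℤ) = n.x * m.x + n.y * m.y + n.z * m.z := by simp [dN]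
  rw [e]
  exact ((h.1.mul h'.1).add (h.2.1.mul h'.2.1)).add (h.2.2.mul h'.2.2)

lemma mvN_cg {W : ℕ} {n : MN} {m : VN} {A : M} {v : V} (h : CgM W n A) (h' : Cg W m v) :
    Cg W (mvN W n m) (mv A v) :=
  ⟨mod_cg _ _ (dN_cg h.1 h'), mod_cg _ _ (dN_cg h.2.1 h'), mod_cg _ _ (dN_cg h.2.2 h')⟩

lemma trN_cg {W : ℕ} {n : MN} {A : M} (h : CgM W n A) : CgM W (trN n) (tr A) :=
  ⟨⟨h.1.1, h.2.1.1, h.2.2.1⟩, ⟨h.1.2.1, h.2.1.2.1, h.2.2.2.1⟩, ⟨h.1.2.2, h.2.1.2.2, h.2.2.2.2⟩⟩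

lemma mcN_cg {W : ℕ} {n m : MN} {A B : M} (h : CgM W n A) (h' : CgM W m (tr B)) :
    CgM W (mcN W n m) (tr (mm A B)) :=
  ⟨mvN_cg h h'.1, mvN_cg h h'.2.1, mvN_cg h h'.2.2⟩

def lc (s : ℤ) (u : V) (t : ℤ) (v : V) : V :=
  ⟨s * u.x + t * v.x, s * u.y + t * v.y, s * u.z + t * v.z⟩

lemma lcN_cg {W s t : ℕ} {n m : VN} {s' t' : ℤ} {u v : V} (hs : (s : ℤ) ≡ s' [ZMOD W])
    (h : Cg W n u) (ht : (t : ℤ) ≡ t' [ZMOD W]) (h' : Cg W m v) :
    Cg W (lcN W s n t m) (lc s' u t' v) := by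
  refine ⟨mod_cg _ _ ?_, mod_cg _ _ ?_, mod_cg _ _ ?_⟩ <;> push_cast
  · exact (hs.mul h.1).add (ht.mul h'.1)
  · exact (hs.mul h.2.1).add (ht.mul h'.2.1)
  · exact (hs.mul h.2.2).add (ht.mul h'.2.2)

lemma idN_cg (W : ℕ) : CgM W idN (tr idM) := by
  simp [CgM, Cg, idN, idM, tr, Int.ModEq.refl]

lemma neg_one_cg {W W1 : ℕ} (h : W1 + 1 = W) : (W1 : ℤ) ≡ -1 [ZMOD W] := by
  rw [Int.modEq_iff_dvd, ← h]
  exact ⟨-1, by push_cast; ring⟩

lemma detN_cg {W W1 : ℕ} (h : W1 + 1 = W) {a b c : VN} {u v w : V} (ha : Cg W a u) (hb : Cg W b v)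
    (hc : Cg W c w) : (detN W W1 a b c : ℤ) ≡ det3 u v w [ZMOD W] := by
  refine mod_cg _ _ ?_
  have e : det3 u v w = u.x * (v.y * w.z) + u.y * (v.z * w.x) + u.z * (v.x * w.y) +
      -1 * (u.x * (v.z * w.y) + u.y * (v.x * w.z) + u.z * (v.y * w.x)) := by
    simp only [det3]; ring
  rw [e]
  simp only [Nat.add_eq, Nat.mul_eq]
  push_cast
  exact (((ha.1.mul (hb.2.1.mul hc.2.2)).add (ha.2.1.mul (hb.2.2.mul hc.1))).add
    (ha.2.2.mul (hb.1.mul hc.2.1))).add ((neg_one_cg h).mul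
    (((ha.1.mul (hb.2.2.mul hc.2.1)).add (ha.2.1.mul (hb.1.mul hc.2.2))).add
    (ha.2.2.mul (hb.2.1.mul hc.1))))

lemma eq_of_cg {W : ℕ} {a b : ℤ} (h : a ≡ b [ZMOD W]) (h1 : |a - b| < W) : a = b := by
  have := Int.eq_zero_of_abs_lt_dvd h.symm.dvd h1
  omega

def toV (n : VN) : V := ⟨n.x, n.y, n.z⟩

lemma toV_cg (W : ℕ) (n : VN) : Cg W n (toV n) := ⟨rfl, rfl, rfl⟩

/-- `v` lies in the coset `r + B Z^3` modulo `W`; the fields of `B` are the generators. -/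
def Lat (W : ℕ) (v : V) (r : VN) (B : MN) : Prop :=
  ∃ s t u : ℤ, r.x + s * B.a.x + t * B.b.x + u * B.c.x ≡ v.x [ZMOD W] ∧
    r.y + s * B.a.y + t * B.b.y + u * B.c.y ≡ v.y [ZMOD W] ∧
    r.z + s * B.a.z + t * B.b.z + u * B.c.z ≡ v.z [ZMOD W]

/-- The functional `f` plus `c` is divisible by `m` on the coset. -/
noncomputable def cg (m c : ℕ) (f r : VN) (B : MN) : Bool :=
  andB (dvB m (Nat.add (dN f r) c)) (andB (dvB m (dN f B.a)) (andB (dvB m (dN f B.b))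
    (dvB m (dN f B.c))))

lemma cg_sound {W m c : ℕ} {f r : VN} {B : MN} {f' v : V} {c' : ℤ} (hm : m ∣ W) (hf : Cg W f f')
    (hc : (c : ℤ) ≡ c' [ZMOD W]) (hv : Lat W v r B) (h : cg m c f r B = true) :
    (m : ℤ) ∣ dot f' v + c' := by
  simp only [cg, andB_iff, dvB_iff] at h
  obtain ⟨h0, h1, h2, h3⟩ := h
  obtain ⟨s, t, u, hx, hy, hz⟩ := hv
  have e : ((dN f r + c : ℕ) : ℤ) + s * (dN f B.a : ℕ) + t * (dN f B.b : ℕ) + u * (dN f B.c : ℕ) ≡
      dot f' v + c' [ZMOD W] := by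
    have := (((hf.1.mul hx).add (hf.2.1.mul hy)).add (hf.2.2.mul hz)).add hc
    refine (Int.ModEq.trans (by rw [Int.ModEq]; congr 1; simp [dN]; ring) this)
  have e' := (e.of_dvd (Int.natCast_dvd_natCast.mpr hm)).dvd
  have e2 : (m : ℤ) ∣ ((dN f r + c : ℕ) : ℤ) + s * (dN f B.a : ℕ) + t * (dN f B.b : ℕ) +
      u * (dN f B.c : ℕ) :=
    dvd_add (dvd_add (dvd_add (Int.natCast_dvd_natCast.mpr h0)
      ((Int.natCast_dvd_natCast.mpr h1).mul_left _)) ((Int.natCast_dvd_natCast.mpr h2).mul_left _))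
      ((Int.natCast_dvd_natCast.mpr h3).mul_left _)
  simpa using dvd_add e' e2

/-- Choice of the generator to be refined. -/
noncomputable def rot (i : ℕ) (B : MN) (k : VN → VN → VN → Bool) : Bool :=
  Nat.rec (k B.a B.b B.c) (fun j _ => Nat.rec (k B.b B.c B.a) (fun _ _ => k B.c B.a B.b) j) i

lemma rot_sound {W : ℕ} {v : V} {r : VN} {B : MN} {i : ℕ} {k : VN → VN → VN → Bool}
    (h : rot i B k = true) : ∃ a b c, k a b c = true ∧ (Lat W v r B → Lat W v r ⟨a, b, c⟩) := by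
  rcases i with _ | _ | i
  · exact ⟨_, _, _, h, id⟩
  · refine ⟨_, _, _, h, ?_⟩
    rintro ⟨s, t, u, hx, hy, hz⟩
    exact ⟨t, u, s, by convert hx using 1; ring, by convert hy using 1; ring,
      by convert hz using 1; ring⟩
  · refine ⟨_, _, _, h, ?_⟩
    rintro ⟨s, t, u, hx, hy, hz⟩
    exact ⟨u, s, t, by convert hx using 1; ring, by convert hy using 1; ring,
      by convert hz using 1; ring⟩

lemma lat_refine {W p h1 h2 : ℕ} (hp : 0 < p) {v : V} {r a b c : VN} (h : Lat W v r ⟨a, b, c⟩) :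
    ∃ s : ℕ, s < p ∧ ∀ r' : VN, Cg W r' (lc 1 (toV r) s (toV a)) →
      Lat W v r' ⟨lcN W p a 0 a, lcN W 1 b h1 a, lcN W 1 c h2 a⟩ := by
  obtain ⟨s, t, u, hx, hy, hz⟩ := h
  have hp' : (0 : ℤ) < p := by exact_mod_cast hp
  obtain ⟨s0, hs0⟩ := Int.eq_ofNat_of_zero_le (Int.emod_nonneg (s - h1 * t - h2 * u) hp'.ne')
  have hlt := Int.emod_lt_of_pos (s - h1 * t - h2 * u) hp'
  have hdiv := Int.emod_add_mul_ediv (s - h1 * t - h2 * u) p
  rw [hs0] at hlt hdiv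
  refine ⟨s0, by exact_mod_cast hlt, fun r' hr => ⟨(s - h1 * t - h2 * u) / p, t, u, ?_⟩⟩
  have c1 := lcN_cg (Int.ModEq.refl (p : ℤ)) (toV_cg W a) (Int.ModEq.refl ((0 : ℕ) : ℤ))
    (toV_cg W a)
  have c2 := lcN_cg (Int.ModEq.refl ((1 : ℕ) : ℤ)) (toV_cg W b) (Int.ModEq.refl (h1 : ℤ))
    (toV_cg W a)
  have c3 := lcN_cg (Int.ModEq.refl ((1 : ℕ) : ℤ)) (toV_cg W c) (Int.ModEq.refl (h2 : ℤ))
    (toV_cg W a)
  generalize (s - h1 * t - h2 * u) / p = w at hdiv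
  have hs : s = s0 + p * w + h1 * t + h2 * u := by linarith
  refine ⟨?_, ?_, ?_⟩
  · refine Int.ModEq.trans ?_ hx
    convert ((hr.1.add (c1.1.mul_left w)).add (c2.1.mul_left t)).add (c3.1.mul_left u) using 1
    simp only [lc, toV, hs]; push_cast; ring
  · refine Int.ModEq.trans ?_ hy
    convert ((hr.2.1.add (c1.2.1.mul_left w)).add (c2.2.1.mul_left t)).add
      (c3.2.1.mul_left u) using 1
    simp only [lc, toV, hs]; push_cast; ring
  · refine Int.ModEq.trans ?_ hz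
    convert ((hr.2.2.add (c1.2.2.mul_left w)).add (c2.2.2.mul_left t)).add
      (c3.2.2.mul_left u) using 1
    simp only [lc, toV, hs]; push_cast; ring

/-- Run `g` at `r`, `r + a`, `r + 2 a`, and so on. -/
noncomputable def kids (W : ℕ) (a : VN) (g : VN → ℕ → (ℕ → Bool) → Bool) (n : ℕ) :
    VN → ℕ → (ℕ → Bool) → Bool :=
  Nat.rec (fun _ code k => k code)
    (fun _ ih r code k => g r code fun code' => lcK W 1 r 1 a fun r' => ih r' code' k) n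

lemma kids_sound {W : ℕ} {a : VN} {g : VN → ℕ → (ℕ → Bool) → Bool} (P : VN → Prop)
    (hg : ∀ r code k, g r code k = true → P r ∧ ∃ c, k c = true) (n : ℕ) :
    ∀ r code k, kids W a g n r code k = true → (∃ c, k c = true) ∧
      ∀ s : ℕ, s < n → ∃ r', P r' ∧ Cg W r' (lc 1 (toV r) s (toV a)) := by
  induction n with
  | zero => exact fun r code k h => ⟨⟨_, h⟩, fun s hs => absurd hs (by omega)⟩
  | succ n ih =>
    intro r code k h
    obtain ⟨h1, c, h2⟩ := hg r code _ h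
    rw [lcK_eq] at h2
    obtain ⟨h3, h4⟩ := ih _ _ _ h2
    refine ⟨h3, fun s hs => ?_⟩
    rcases s with _ | s
    · exact ⟨r, h1, by simp [Cg, lc, toV, Int.ModEq.refl]⟩
    · obtain ⟨r', h5, h6⟩ := h4 s (by omega)
      have c1 := lcN_cg (Int.ModEq.refl ((1 : ℕ) : ℤ)) (toV_cg W r) (Int.ModEq.refl ((1 : ℕ) : ℤ))
        (toV_cg W a)
      refine ⟨r', h5, h6.1.trans ?_, h6.2.1.trans ?_, h6.2.2.trans ?_⟩
      · convert (c1.1.mul_left 1).add (Int.ModEq.refl ((s : ℤ) * a.x)) using 1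
        · rfl
        · simp only [lc, toV]; push_cast; ring
      · convert (c1.2.1.mul_left 1).add (Int.ModEq.refl ((s : ℤ) * a.y)) using 1
        · rfl
        · simp only [lc, toV]; push_cast; ring
      · convert (c1.2.2.mul_left 1).add (Int.ModEq.refl ((s : ℤ) * a.z)) using 1
        · rfl
        · simp only [lc, toV]; push_cast; ring

/-- List lookup. -/
noncomputable def getL {α : Type} (l : List α) : ℕ → (α → Bool) → Bool :=
  List.rec (fun _ _ => false) (fun a _ ih n k => Nat.rec (k a) (fun m _ => ih m k) n) l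

lemma getL_sound {α : Type} {l : List α} {n : ℕ} {k : α → Bool} (h : getL l n k = true) :
    ∃ a ∈ l, k a = true := by
  induction l generalizing n with
  | nil => exact absurd h (by simp [getL])
  | cons a l ih =>
    rcases n with _ | n
    · exact ⟨a, by simp, h⟩
    · obtain ⟨b, hb, hk⟩ := ih (n := n) h
      exact ⟨b, by simp [hb], hk⟩

/-- Binary lookup trees. -/
inductive Tr (α : Type) : Type
  | lf : α → Tr α
  | nd : Tr α → Tr α → Tr α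

noncomputable def Tr.getK {α : Type} (t : Tr α) : ℕ → (α → Bool) → Bool :=
  Tr.rec (fun a _ k => k a) (fun _ _ gl gr n k =>
    Nat.rec (gl (Nat.shiftRight n 1) k) (fun _ _ => gr (Nat.shiftRight n 1) k) (Nat.land n 1)) t

def Tr.get {α : Type} : Tr α → ℕ → α
  | .lf a, _ => a
  | .nd l r, n => if Nat.land n 1 = 0 then l.get (Nat.shiftRight n 1) else r.get (Nat.shiftRight n 1)

lemma Tr.getK_eq {α : Type} (t : Tr α) (n : ℕ) (k : α → Bool) : t.getK n k = k (t.get n) := by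
  induction t generalizing n with
  | lf a => rfl
  | nd l r ihl ihr =>
    have e : (Tr.nd l r).getK n k = Nat.rec (l.getK (Nat.shiftRight n 1) k)
      (fun _ _ => r.getK (Nat.shiftRight n 1) k) (Nat.land n 1) := rfl
    rw [e, Tr.get]
    cases h : Nat.land n 1 with
    | zero => simp [ihl]
    | succ m => simp [ihr]

def Tr.all {α : Type} (p : α → Bool) : Tr α → Bool
  | .lf a => p a
  | .nd l r => l.all p && r.all p

lemma Tr.all_get {α : Type} {p : α → Bool} {t : Tr α} (h : t.all p = true) (n : ℕ) :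
    p (t.get n) = true := by
  induction t generalizing n with
  | lf a => exact h
  | nd l r ihl ihr =>
    rw [Tr.all, Bool.and_eq_true] at h
    rw [Tr.get]
    split_ifs
    · exact ihl h.1 _
    · exact ihr h.2 _

/-- The representative of least absolute value. -/
def dec (W n : ℕ) : ℤ := if 2 * n ≤ W then n else (n : ℤ) - W

def decV (W : ℕ) (n : VN) : V := ⟨dec W n.x, dec W n.y, dec W n.z⟩

def decM (W : ℕ) (n : MN) : M := ⟨decV W n.a, decV W n.b, decV W n.c⟩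

lemma dec_cg (W n : ℕ) : (n : ℤ) ≡ dec W n [ZMOD W] := by
  unfold dec
  split_ifs
  · rfl
  · rw [Int.modEq_iff_dvd]; exact ⟨-1, by ring⟩

lemma decM_cg (W : ℕ) (n : MN) : CgM W n (decM W n) :=
  ⟨⟨dec_cg _ _, dec_cg _ _, dec_cg _ _⟩, ⟨dec_cg _ _, dec_cg _ _, dec_cg _ _⟩,
    ⟨dec_cg _ _, dec_cg _ _, dec_cg _ _⟩⟩

end Pool.Agent.P.MP_2ce53a_nt
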