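import Mathlib
import Pool.Agent.P.MP_2ce53a_nt.Res

/-!
The certificate checker.  A certificate is a tree of case distinctions on a vector `v` of norm
`T`, written as a stream of 40-bit words.
-/

namespace Pool.Agent.P.MP_2ce53a_nt

structure Ctx where
  q : F
  W : ℕ
  W1 : ℕ
  H : ℕ
  Dm : ℕ
  Mo : ℕ
  T0 : ℕ
  j : ℕ
  k : ℕ
  sn : ℕ
  sd : ℕ
  two : Bool
  mj : ℕ
  mk' : ℕ
  rj : ℕ
  rk : ℕ
  mm : ℕ
  mvT : Tr (MN × ℕ)
  tsT : Tr (MN × ℕ)
  ceT : Tr ℕ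

structure Cell where
  r1 : ℕ
  r2 : ℕ
  r3 : ℕ
  a : ℕ
  b : ℕ
  c : ℕ
  e : ℕ
  f : ℕ
  i : ℕ

def fld (w t : ℕ) : ℕ := Nat.mod (Nat.shiftRight w t) 281474976710656

def cword (blk i : ℕ) : ℕ :=
  Nat.mod (Nat.shiftRight blk (Nat.mul 432 (Nat.mod i 64))) (Nat.pow 2 432)

def cellW (w : ℕ) : Cell :=
  ⟨fld w 0, fld w 48, fld w 96, fld w 144, fld w 192, fld w 240, fld w 288, fld w 336, fld w 384⟩

def cellOf (C : Ctx) (i : ℕ) : Cell := cellW (cword (C.ceT.get (Nat.shiftRight i 6)) i)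

noncomputable def getCell (C : Ctx) (i : ℕ) (k : Cell → Bool) : Bool :=
  C.ceT.getK (Nat.shiftRight i 6) fun blk => fN (cword blk i) fun w =>
    fN (fld w 0) fun r1 => fN (fld w 48) fun r2 => fN (fld w 96) fun r3 =>
    fN (fld w 144) fun a => fN (fld w 192) fun b => fN (fld w 240) fun c =>
    fN (fld w 288) fun e => fN (fld w 336) fun f => fN (fld w 384) fun i =>
    k ⟨r1, r2, r3, a, b, c, e, f, i⟩

lemma getCell_eq (C : Ctx) (i : ℕ) (k : Cell → Bool) : getCell C i k = k (cellOf C i) := by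
  rw [getCell, Tr.getK_eq]; rfl

def InCell (c : Cell) (v : V) : Prop :=
  ∃ s t u : ℤ, v.x = c.r1 + s * c.a + t * c.b + u * c.c ∧ v.y = c.r2 + t * c.e + u * c.f ∧
    v.z = c.r3 + u * c.i

def Cell.r (c : Cell) : VN := ⟨c.r1, c.r2, c.r3⟩
def Cell.B (c : Cell) : MN := ⟨⟨c.a, 0, 0⟩, ⟨c.b, c.e, 0⟩, ⟨c.c, c.f, c.i⟩⟩

lemma InCell.lat {c : Cell} {v : V} (h : InCell c v) (W : ℕ) : Lat W v c.r c.B := by
  obtain ⟨s, t, u, hx, hy, hz⟩ := h
  refine ⟨s, t, u, ?_, ?_, ?_⟩ <;> simp [Cell.r, Cell.B, hx, hy, hz, Int.ModEq.refl]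

structure St where
  r : VN
  B : MN
  ps : List (MN × ℕ)
  ls : List (VN × Bool)
  cs : List (VN × VN)
  acc : MN
  da : ℕ

abbrev Rec : Type := St → ℕ → (ℕ → Bool) → Bool

def f1 (w : ℕ) : ℕ := Nat.mod (Nat.shiftRight w 4) 256
def f2 (w : ℕ) : ℕ := Nat.mod (Nat.shiftRight w 12) 256
def f3 (w : ℕ) : ℕ := Nat.mod (Nat.shiftRight w 20) 256
def f4 (w : ℕ) : ℕ := Nat.shiftRight w 28

section ops

variable (C : Ctx) (cur : ℕ) (lg : MN) (ld : ℕ) (ih : Rec) (r : VN) (B : MN)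
  (ps : List (MN × ℕ)) (ls : List (VN × Bool)) (cs : List (VN × VN)) (acc : MN) (da w code : ℕ)
  (k : ℕ → Bool)

/-- A position composed with a move. -/
noncomputable def pos (k : MN → ℕ → Bool) : Bool :=
  getL ps (f1 w) fun g => C.mvT.getK (f2 w) fun m => fN (Nat.mul g.2 m.2) fun d =>
    mcK C.W m.1 g.1 fun h => k h d

noncomputable def opMv : Bool :=
  pos C ps w fun h d => ih ⟨r, B, (h, d) :: ps, ls, cs, acc, da⟩ code k

noncomputable def opTs : Bool :=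
  getL ps (f1 w) fun g => C.tsT.getK (f2 w) fun t => fN (Nat.mul t.2 g.2) fun e =>
    andB (dvB (Nat.mul e C.mm) C.W) (andB (Nat.ble g.2 C.Dm)
      (mvK C.W g.1 t.1.b fun fb => andB (cg (Nat.mul e C.mj) (Nat.mul e C.rj) fb r B)
        (mvK C.W g.1 t.1.c fun fc => andB (cg (Nat.mul e C.mk') (Nat.mul e C.rk) fc r B)
          (Bool.rec (ih ⟨r, B, ps, (fc, true) :: ls, cs, acc, da⟩ code k)
            (ih ⟨r, B, ps, ls, (fb, fc) :: cs, acc, da⟩ code k) C.two))))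

noncomputable def opSp : Bool :=
  getL cs (f1 w) fun c => ih ⟨r, B, ps, (c.2, true) :: ls, cs, acc, da⟩ code fun code' =>
    lcK C.W C.W1 c.2 0 c.2 fun n => ih ⟨r, B, ps, (c.1, true) :: (n, false) :: ls, cs, acc, da⟩
      code' k

noncomputable def pick (s : Bool) (n : ℕ) : ℕ := Bool.rec 0 n s

noncomputable def opFk : Bool :=
  getL ls (f1 w) fun a => getL ls (f2 w) fun b => getL ls (f3 w) fun c => getL ls (f4 w) fun d =>
    fN (detN C.W C.W1 b.1 c.1 d.1) fun l1 => andB (Nat.ble l1 C.H)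
    (fN (detN C.W C.W1 c.1 a.1 d.1) fun l2 => andB (Nat.ble l2 C.H)
    (fN (detN C.W C.W1 a.1 b.1 d.1) fun l3 => andB (Nat.ble l3 C.H)
    (fN (detN C.W C.W1 b.1 a.1 c.1) fun l4 => andB (Nat.ble l4 C.H)
    (andB (Nat.ble 1 (Nat.add (Nat.add (Nat.add (pick a.2 l1) (pick b.2 l2)) (pick c.2 l3))
      (pick d.2 l4))) (k code)))))

noncomputable def opBr : Bool :=
  fN (f4 w) fun p => andB (Nat.ble 1 p) (rot (f1 w) B fun a b c =>
    lcK C.W p a 0 a fun a' => lcK C.W 1 b (f2 w) a fun b' => lcK C.W 1 c (f3 w) a fun c' =>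
      kids C.W a (fun r' => ih ⟨r', ⟨a', b', c'⟩, ps, ls, cs, acc, da⟩) p r code k)

def QN (q : F) (v : VN) : ℕ :=
  q.a * v.x ^ 2 + q.b * v.y ^ 2 + q.c * v.z ^ 2 + q.d * (v.y * v.z) + q.e * (v.x * v.z) +
    q.f * (v.x * v.y)

def BN (q : F) (u v : VN) : ℕ :=
  2 * q.a * (u.x * v.x) + 2 * q.b * (u.y * v.y) + 2 * q.c * (u.z * v.z) +
    q.d * (u.y * v.z + u.z * v.y) + q.e * (u.x * v.z + u.z * v.x) + q.f * (u.x * v.y + u.y * v.x)

noncomputable def opQd : Bool :=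
  fN (Nat.shiftRight w 4) fun m => andB (dvB m C.Mo) (andB (dvB m C.W)
    (andB (dvB m (BN C.q r B.a)) (andB (dvB m (BN C.q r B.b)) (andB (dvB m (BN C.q r B.c))
    (andB (dvB m (QN C.q B.a)) (andB (dvB m (QN C.q B.b)) (andB (dvB m (QN C.q B.c))
    (andB (dvB m (BN C.q B.a B.b)) (andB (dvB m (BN C.q B.a B.c)) (andB (dvB m (BN C.q B.b B.c))
    (Bool.rec (k code) false (dvB m (Nat.add (QN C.q r) (Nat.mul C.W1 C.T0))))))))))))))

/-- The moved vector lies in a cell. -/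
noncomputable def memb (k : MN → ℕ → ℕ → Cell → Bool) : Bool :=
  pos C ps w fun h d => fN (Nat.shiftRight w 20) fun ci => getCell C ci fun c =>
    fN (Nat.mul d c.i) fun m3 => fN (Nat.mul m3 c.e) fun m2 => fN (Nat.mul m2 c.a) fun m1 =>
    andB (dvB m1 C.W) (fN (Nat.mul C.W1 (Nat.mul d c.r3)) fun p3 =>
    andB (cg m3 p3 (trN h).c r B)
    (lcK C.W c.i (trN h).b (Nat.mul C.W1 c.f) (trN h).c fun g2 =>
    fN (Nat.add (Nat.mul C.W1 (Nat.mul m3 c.r2)) (Nat.mul (Nat.mul C.W1 c.f) p3)) fun p2 =>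
    andB (cg m2 p2 g2 r B)
    (lcK C.W (Nat.mul C.W1 c.b) g2 (Nat.mul C.W1 (Nat.mul c.c c.e)) (trN h).c fun g0 =>
    lcK C.W (Nat.mul c.e c.i) (trN h).a 1 g0 fun g1 =>
    andB (cg m1 (Nat.add (Nat.add (Nat.mul C.W1 (Nat.mul m2 c.r1)) (Nat.mul (Nat.mul C.W1 c.b) p2))
      (Nat.mul (Nat.mul C.W1 (Nat.mul c.c c.e)) p3)) g1 r B) (k h d ci c))))

noncomputable def opGo : Bool :=
  memb C r B ps w fun _ _ ci _ => andB (Nat.ble (Nat.succ ci) cur) (k code)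

noncomputable def opRb : Bool :=
  memb C r B ps w fun h d _ c => mcK C.W (trN h) acc fun acc' => fN (Nat.mul da d) fun da' =>
    ih ⟨c.r, c.B, [(idN, 1)], [], [], acc', da'⟩ code k

noncomputable def eqV (u v : VN) : Bool :=
  andB (Nat.beq u.x v.x) (andB (Nat.beq u.y v.y) (Nat.beq u.z v.z))

noncomputable def opLp : Bool :=
  memb C r B ps w fun h d ci _ => mcK C.W (trN h) acc fun acc' =>
    andB (Nat.beq ci cur) (andB (Nat.beq (Nat.mul da d) ld) (andB (Nat.ble 1 ld)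
      (andB (eqV acc'.a lg.a) (andB (eqV acc'.b lg.b) (andB (eqV acc'.c lg.c) (k code))))))

noncomputable def sel (t : ℕ) (a0 a1 a2 a3 a4 a5 a6 a7 a8 : Bool) : Bool :=
  Nat.rec a0 (fun t _ => Nat.rec a1 (fun t _ => Nat.rec a2 (fun t _ => Nat.rec a3 (fun t _ =>
    Nat.rec a4 (fun t _ => Nat.rec a5 (fun t _ => Nat.rec a6 (fun t _ =>
    Nat.rec a7 (fun _ _ => a8) t) t) t) t) t) t) t) t

noncomputable def step (st : St) (code : ℕ) (k : ℕ → Bool) : Bool :=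
  St.rec (fun r B ps ls cs acc da => fN (Nat.mod code 1099511627776) fun w =>
    fN (Nat.shiftRight code 40) fun code => sel (Nat.mod w 16)
      (opMv C ih r B ps ls cs acc da w code k) (opTs C ih r B ps ls cs acc da w code k)
      (opFk C ls w code k) (opGo C cur r B ps w code k) (opBr C ih r B ps ls cs acc da w code k)
      (opSp C ih r B ps ls cs acc da w code k) (opQd C r B w code k)
      (opRb C ih r B ps acc da w code k) (opLp C cur lg ld r B ps acc da w code k)) st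

noncomputable def check (fuel : ℕ) : Rec :=
  Nat.rec (fun _ _ _ => false) (fun _ ih => step C cur lg ld ih) fuel

end ops

lemma sel_true {t : ℕ} {a0 a1 a2 a3 a4 a5 a6 a7 a8 : Bool}
    (h : sel t a0 a1 a2 a3 a4 a5 a6 a7 a8 = true) : a0 = true ∨ a1 = true ∨ a2 = true ∨
      a3 = true ∨ a4 = true ∨ a5 = true ∨ a6 = true ∨ a7 = true ∨ a8 = true := by
  rcases t with _ | _ | _ | _ | _ | _ | _ | _ | t <;> simp only [sel, Nat.rec_zero] at h <;>
    tauto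

/-- Check one cell. -/
noncomputable def cellChk (C : Ctx) (i : ℕ) (lg : MN) (ld code : ℕ) (k : ℕ → Bool) : Bool :=
  getCell C i fun c => check C i lg ld 1000 ⟨c.r, c.B, [(idN, 1)], [], [], idN, 1⟩ code k

/-- Check `n` cells without a loop, from index `i` on. -/
noncomputable def run (C : Ctx) (n : ℕ) : ℕ → ℕ → (ℕ → Bool) → Bool :=
  Nat.rec (fun i _ k => k i) (fun _ ih i code k => cellChk C i idN 0 code fun code' =>
    fN (Nat.succ i) fun i' => ih i' code' k) n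

/-- Data for a cell with a loop. -/
structure Loop where
  g : MN
  d : ℕ
  neg : Bool
  s : ℕ
  z : ℤ
  x : ℕ
  y : ℕ

def cross (a b : V) : V := ⟨a.y * b.z - a.z * b.y, a.z * b.x - a.x * b.z, a.x * b.y - a.y * b.x⟩

def crossRows (N : M) (s : ℕ) : V :=
  if s = 0 then cross N.a N.b else if s = 1 then cross N.b N.c else cross N.c N.a

def gcd3 (v : V) : ℕ := Nat.gcd (Nat.gcd v.x.natAbs v.y.natAbs) v.z.natAbs

def divV (v : V) (g : ℤ) : V := ⟨v.x / g, v.y / g, v.z / g⟩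

instance : DecidableEq V := fun a b =>
  decidable_of_iff (a.x = b.x ∧ a.y = b.y ∧ a.z = b.z) V.ext_iff.symm

instance : DecidableEq M := fun a b =>
  decidable_of_iff (a.a = b.a ∧ a.b = b.b ∧ a.c = b.c) M.ext_iff.symm

instance (b : ℤ) (v : V) : Decidable (Bd b v) := by unfold Bd; infer_instance

def loopCond (C : Ctx) (l : Loop) (A : M) (ε τ : ℤ) (kv a : V) : Prop :=
  2 ≤ l.d ∧ 4 * l.d < C.W ∧ Int.gcd l.d τ = 1 ∧
    (Bd (2 * l.d) A.a ∧ Bd (2 * l.d) A.b ∧ Bd (2 * l.d) A.c) ∧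
    mm (subS (mm A (subS A τ)) (-(l.d : ℤ) ^ 2)) (subS A (ε * l.d)) =
      ⟨⟨0, 0, 0⟩, ⟨0, 0, 0⟩, ⟨0, 0, 0⟩⟩ ∧
    gcd3 kv ≠ 0 ∧ kv = sm (gcd3 kv) a ∧ gcd3 a = 1 ∧
    (¬ (C.Mo : ℤ) ∣ C.q.Q a - C.T0 ∨ C.q.Q a < C.T0 ∨
      C.q.Q a = C.T0 + C.Mo * (genPent l.z + polyg C.j l.x + polyg C.k l.y))

def loopOK (C : Ctx) (l : Loop) : Prop :=
  let A := tr (decM C.W l.g)
  let ε : ℤ := if l.neg then -1 else 1
  let kv := crossRows (subS A (ε * l.d)) l.s
  loopCond C l A ε (A.a.x + A.b.y + A.c.z - ε * l.d) kv (divV kv (gcd3 kv))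

instance (C : Ctx) (l : Loop) : Decidable (loopOK C l) := by
  unfold loopOK loopCond; infer_instance

inductive Items : Type
  | nil : Items
  | run : ℕ → ℕ → Items → Items
  | loop : ℕ → Loop → Items → Items

noncomputable def chk (C : Ctx) (it : Items) : ℕ → ℕ → Bool :=
  Items.rec (fun i e => Nat.ble e i) (fun n code _ ih i e => run C n i code fun i' => ih i' e)
    (fun code l _ ih i e => andB (decide (loopOK C l)) (cellChk C i l.g l.d code fun _ =>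
      fN (Nat.succ i) fun i' => ih i' e)) it

end Pool.Agent.P.MP_2ce53a_nt
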