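import Mathlib
import Pool.Agent.P.MP_2ce53a_nt.Check

/-!
Static conditions on a context, and the passage from a vector to a sum of polygonal numbers.
-/

namespace Pool.Agent.P.MP_2ce53a_nt

def Sim (q' q : F) (A : M) (s t : ℤ) : Prop :=
  ∀ u v, s * q'.B (mv A u) (mv A v) = t * q.B u v

def simB (q' q : F) (A : M) (s t : ℤ) : Bool :=
  decide (s * q'.B (tr A).a (tr A).a = t * (2 * q.a) ∧ s * q'.B (tr A).b (tr A).b = t * (2 * q.b) ∧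
    s * q'.B (tr A).c (tr A).c = t * (2 * q.c) ∧ s * q'.B (tr A).b (tr A).c = t * q.d ∧
    s * q'.B (tr A).a (tr A).c = t * q.e ∧ s * q'.B (tr A).a (tr A).b = t * q.f)

lemma simB_sound {q' q : F} {A : M} {s t : ℤ} (h : simB q' q A s t = true) : Sim q' q A s t := by
  simp only [simB, decide_eq_true_eq] at h
  obtain ⟨h1, h2, h3, h4, h5, h6⟩ := h
  intro u v
  simp only [F.B, mv, tr, dot] at *
  linear_combination u.x * v.x * h1 + u.y * v.y * h2 + u.z * v.z * h3 +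
    (u.y * v.z + u.z * v.y) * h4 + (u.x * v.z + u.z * v.x) * h5 + (u.x * v.y + u.y * v.x) * h6

def Ctx.D (C : Ctx) : F := ⟨(C.j - 2) * (C.k - 2), 3 * (C.k - 2), 3 * (C.j - 2), 0, 0, 0⟩

def Ctx.Num (C : Ctx) : Prop :=
  C.W1 + 1 = C.W ∧ 2 * C.H ≤ C.W ∧ 12 * (6000 * C.Dm) ^ 3 < C.W ∧ C.q.disc ∣ C.W ∧ 3 ≤ C.j ∧
    3 ≤ C.k ∧ C.mj = 2 * (C.j - 2) ∧ C.mk' = 2 * (C.k - 2) ∧ C.rj = ((C.j : ℤ) - 4).natAbs ∧
    C.rk = ((C.k : ℤ) - 4).natAbs ∧ C.mj ∣ C.mm ∧ C.mk' ∣ C.mm ∧ (C.two = false → C.j ≤ 4) ∧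
    C.sn ≠ 0 ∧ C.Mo ≠ 0 ∧
    (C.sd : ℤ) * C.T0 = C.sn * ((C.j - 2) * (C.k - 2) + 3 * (C.k - 2) * (C.j - 4) ^ 2 +
      3 * (C.j - 2) * (C.k - 4) ^ 2) ∧
    (C.sd : ℤ) * C.Mo = C.sn * (24 * (C.j - 2) * (C.k - 2))

instance (C : Ctx) : Decidable C.Num := by unfold Ctx.Num; infer_instance

def Ctx.okB (C : Ctx) : Bool :=
  decide C.Num && C.mvT.all (fun m => simB C.q C.q (decM C.W m.1) 1 ((m.2 : ℤ) ^ 2)) &&
    C.tsT.all fun t => simB C.D C.q (decM C.W t.1) C.sn (C.sd * (t.2 : ℤ) ^ 2) &&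
      decide (Bd 1000 (decM C.W t.1).b ∧ Bd 1000 (decM C.W t.1).c)

lemma two_polyg (m x : ℕ) : 2 * polyg m x = ((m : ℤ) - 2) * (x : ℤ) ^ 2 - ((m : ℤ) - 4) * x := by
  unfold polyg
  apply Int.mul_ediv_cancel'
  obtain ⟨t, ht⟩ := Int.even_mul_pred_self (x : ℤ)
  exact ⟨((m : ℤ) - 2) * t + x, by linear_combination ((m : ℤ) - 2) * ht⟩

lemma two_genPent (z : ℤ) : 2 * genPent z = 3 * z ^ 2 - z := by
  unfold genPent
  apply Int.mul_ediv_cancel'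
  obtain ⟨t, ht⟩ := Int.even_mul_pred_self z
  exact ⟨3 * t + z, by linear_combination 3 * ht⟩

lemma exists_polyg {j : ℕ} (hj : 3 ≤ j) {b : ℤ}
    (h : ((2 * (j - 2) : ℕ) : ℤ) ∣ b + (((j : ℤ) - 4).natAbs : ℕ)) (hb : 0 ≤ b ∨ j ≤ 4) :
    ∃ x : ℕ, b ^ 2 = 8 * ((j : ℤ) - 2) * polyg j x + ((j : ℤ) - 4) ^ 2 := by
  have key : ∀ (x : ℕ), b ^ 2 = (2 * ((j : ℤ) - 2) * x - ((j : ℤ) - 4)) ^ 2 →
      b ^ 2 = 8 * ((j : ℤ) - 2) * polyg j x + ((j : ℤ) - 4) ^ 2 := fun x hx => by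
    have := two_polyg j x
    linear_combination hx - 4 * ((j : ℤ) - 2) * this
  obtain ⟨t, ht⟩ := h
  rcases Nat.lt_or_ge j 5 with h5 | h5
  · obtain rfl | rfl : j = 3 ∨ j = 4 := by omega
    · norm_num at ht
      rcases le_or_gt 0 b with h0 | h0
      · obtain ⟨x, hx⟩ := Int.eq_ofNat_of_zero_le (by omega : 0 ≤ t - 1)
        exact ⟨x, key x (by rw [← hx, show b = 2 * t - 1 by omega]; push_cast; ring)⟩
      · obtain ⟨x, hx⟩ := Int.eq_ofNat_of_zero_le (by omega : 0 ≤ -t)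
        exact ⟨x, key x (by rw [← hx, show b = 2 * t - 1 by omega]; push_cast; ring)⟩
    · norm_num at ht
      refine ⟨t.natAbs, key _ ?_⟩
      rw [ht, Int.natCast_natAbs]
      push_cast
      have := sq_abs t
      linear_combination -16 * this
  · have hb0 : 0 ≤ b := hb.resolve_right (by omega)
    have e1 : ((((j : ℤ) - 4).natAbs : ℕ) : ℤ) = j - 4 := by omega
    have e2 : ((2 * (j - 2) : ℕ) : ℤ) = 2 * ((j : ℤ) - 2) := by
      push_cast [show 2 ≤ j by omega]; ring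
    rw [e1, e2] at ht
    have ht0 : 0 ≤ t := by
      by_contra hc
      have : (2 * ((j : ℤ) - 2)) * t ≤ 0 := mul_nonpos_of_nonneg_of_nonpos (by omega) (by omega)
      omega
    obtain ⟨x, rfl⟩ := Int.eq_ofNat_of_zero_le ht0
    exact ⟨x, key x (by rw [← ht]; ring)⟩

lemma exists_genPent {a t : ℤ} (h : a ^ 2 = 24 * t + 1) : ∃ z, t = genPent z := by
  have key : ∀ z : ℤ, a ^ 2 = (6 * z - 1) ^ 2 → t = genPent z := fun z hz => by
    have := two_genPent z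
    nlinarith
  obtain ⟨s, hs⟩ : ∃ s, a = 6 * s ∨ a = 6 * s + 1 ∨ a = 6 * s + 2 ∨ a = 6 * s + 3 ∨
      a = 6 * s + 4 ∨ a = 6 * s + 5 := ⟨a / 6, by omega⟩
  rcases hs with rfl | rfl | rfl | rfl | rfl | rfl
  · exfalso; ring_nf at h; omega
  · exact ⟨-s, key _ (by ring)⟩
  · exfalso; ring_nf at h; omega
  · exfalso; ring_nf at h; omega
  · exfalso; ring_nf at h; omega
  · exact ⟨s + 1, key _ (by ring)⟩

/-- `n` has no representation. -/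
def Bad (C : Ctx) (n : ℕ) : Prop :=
  ¬ ∃ (z : ℤ) (x y : ℕ), (n : ℤ) = genPent z + polyg C.j x + polyg C.k y

lemma test_sound {C : Ctx} (hC : C.Num) {n : ℕ} (hn : Bad C n) {T : M} {e d : ℕ} {u : V}
    (hT : Sim C.D C.q T C.sn (C.sd * (e : ℤ) ^ 2))
    (hu : C.q.Q u = (d : ℤ) ^ 2 * (C.T0 + C.Mo * n)) (hed : e * d ≠ 0)
    (hb : ((e * d * C.mj : ℕ) : ℤ) ∣ dot T.b u + (e * d * C.rj : ℕ))
    (hc : ((e * d * C.mk' : ℕ) : ℤ) ∣ dot T.c u + (e * d * C.rk : ℕ)) :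
    (C.two = true ∧ dot T.b u < 0) ∨ dot T.c u < 0 := by
  obtain ⟨-, -, -, -, hj, hk, e1, e2, e3, e4, -, -, h2, hsn, -, hT0, hMo⟩ := hC
  by_contra hcon
  have hc0 : 0 ≤ dot T.c u := by
    by_contra h; exact hcon (Or.inr (by omega))
  have hb0 : 0 ≤ dot T.b u ∨ C.j ≤ 4 := by
    cases ht : C.two
    · exact Or.inr (h2 ht)
    · left; by_contra h; exact hcon (Or.inl ⟨ht, by omega⟩)
  have hg : (0 : ℤ) < (e * d : ℕ) := by exact_mod_cast Nat.pos_of_ne_zero hed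
  generalize hge : ((e * d : ℕ) : ℤ) = g at hg
  have hge' : (e : ℤ) * d = g := by exact_mod_cast hge
  rw [Nat.cast_mul, hge, Nat.cast_mul, hge] at hb hc
  obtain ⟨s, hs⟩ := hb
  obtain ⟨t, ht⟩ := hc
  have hb1 : dot T.b u = g * (C.mj * s - C.rj) := by linear_combination hs
  have hc1 : dot T.c u = g * (C.mk' * t - C.rk) := by linear_combination ht
  obtain ⟨x, hx⟩ := exists_polyg hj (b := C.mj * s - C.rj) ⟨s, by rw [← e1, ← e3]; ring⟩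
    (hb0.imp_left fun h => by rw [hb1] at h; exact (mul_nonneg_iff_of_pos_left hg).1 h)
  obtain ⟨y, hy⟩ := exists_polyg hk (b := C.mk' * t - C.rk) ⟨t, by rw [← e2, ← e4]; ring⟩
    (Or.inl (by rw [hc1] at hc0; exact (mul_nonneg_iff_of_pos_left hg).1 hc0))
  have h1 := hT u u
  rw [B_self, B_self, hu] at h1
  have h3 : C.D.Q (mv T u) = ((C.j : ℤ) - 2) * (C.k - 2) * dot T.a u ^ 2 +
      3 * (C.k - 2) * dot T.b u ^ 2 + 3 * (C.j - 2) * dot T.c u ^ 2 := by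
    simp only [F.Q, Ctx.D, mv]
    push_cast [show 2 ≤ C.j by omega, show 2 ≤ C.k by omega]
    ring
  rw [h3, hb1, hc1, mul_pow, mul_pow, hx, hy] at h1
  have hne : (C.sn : ℤ) * ((C.j - 2) * (C.k - 2)) ≠ 0 :=
    mul_ne_zero (by exact_mod_cast hsn) (mul_ne_zero (by omega) (by omega))
  have h4 : dot T.a u ^ 2 = g ^ 2 * (24 * (n - polyg C.j x - polyg C.k y) + 1) := by
    apply mul_left_cancel₀ hne
    rw [← hge'] at h1 ⊢
    linear_combination (e : ℤ) ^ 2 * d ^ 2 * hT0 + (e : ℤ) ^ 2 * d ^ 2 * n * hMo +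
      (mul_left_cancel₀ (two_ne_zero (α := ℤ)) (by linear_combination h1) :
        C.sn * (((C.j : ℤ) - 2) * (C.k - 2) * dot T.a u ^ 2 + 3 * (C.k - 2) * ((e * d) ^ 2 *
          (8 * ((C.j : ℤ) - 2) * polyg C.j x + ((C.j : ℤ) - 4) ^ 2)) + 3 * (C.j - 2) *
          ((e * d) ^ 2 * (8 * ((C.k : ℤ) - 2) * polyg C.k y + ((C.k : ℤ) - 4) ^ 2))) =
        C.sd * e ^ 2 * (d ^ 2 * (C.T0 + C.Mo * n)))
  obtain ⟨a, ha⟩ : g ∣ dot T.a u := (Int.pow_dvd_pow_iff two_ne_zero).1 ⟨_, h4⟩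
  rw [ha, mul_pow] at h4
  obtain ⟨z, hz⟩ := exists_genPent (mul_left_cancel₀ (pow_ne_zero 2 hg.ne') h4)
  exact hn ⟨z, x, y, by linarith⟩

end Pool.Agent.P.MP_2ce53a_nt
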