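import Mathlib
import Pool.Agent.P.MP_2ce53a_nt.Test

/-!
Soundness of the certificate checker.
-/

namespace Pool.Agent.P.MP_2ce53a_nt

/-- Primitive vectors of the norm attached to `n`. -/
def SV (C : Ctx) (n : ℕ) (v : V) : Prop := C.q.Q v = C.T0 + C.Mo * n ∧ Prim C.W v

def Emp (C : Ctx) (n i : ℕ) : Prop := ∀ v, SV C n v → ¬ InCell (cellOf C i) v

def PosOK (C : Ctx) (g : MN × ℕ) : Prop := ∃ A, CgM C.W g.1 (tr A) ∧ Iso C.q A g.2

def LitOK (C : Ctx) (v : V) (l : VN × Bool) : Prop :=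
  ∃ f, Cg C.W l.1 f ∧ Bd (6000 * C.Dm) f ∧ dot f v ≤ 0 ∧ (l.2 = true → dot f v < 0)

def ClOK (C : Ctx) (v : V) (c : VN × VN) : Prop :=
  ∃ f g, Cg C.W c.1 f ∧ Cg C.W c.2 g ∧ Bd (6000 * C.Dm) f ∧ Bd (6000 * C.Dm) g ∧
    (dot f v < 0 ∨ dot g v < 0)

def Inv (C : Ctx) (n : ℕ) (v0 : V) (s : St) : Prop :=
  ∃ v, SV C n v ∧ Lat C.W v s.r s.B ∧ (∀ g ∈ s.ps, PosOK C g) ∧ (∀ l ∈ s.ls, LitOK C v l) ∧
    (∀ c ∈ s.cs, ClOK C v c) ∧
    ∃ A, CgM C.W s.acc (tr A) ∧ Iso C.q A s.da ∧ sm s.da v = mv A v0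

def Goal (C : Ctx) (n cur : ℕ) (lg : MN) (ld : ℕ) (v0 : V) : Prop :=
  1 ≤ ld ∧ ∃ v A, SV C n v ∧ InCell (cellOf C cur) v ∧ CgM C.W lg (tr A) ∧ Iso C.q A ld ∧
    sm ld v = mv A v0

def Snd (P : St → Prop) (G : Prop) (g : Rec) : Prop :=
  ∀ s code k, g s code k = true → (P s → G) ∧ ∃ c, k c = true

structure Hyp (C : Ctx) (n : ℕ) : Prop where
  ok : C.okB = true
  pos : C.q.Pos
  bad : Bad C n
  sq : ∀ l : ℕ, l.Prime → l ∣ C.W → ¬ (l : ℤ) ^ 2 ∣ C.T0 + C.Mo * n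

lemma Hyp.num {C : Ctx} {n : ℕ} (H : Hyp C n) : C.Num := by
  have := H.ok
  simp only [Ctx.okB, Bool.and_eq_true, decide_eq_true_eq] at this
  exact this.1.1

lemma Hyp.W_ne {C : Ctx} {n : ℕ} (H : Hyp C n) : C.W ≠ 0 := by
  have := H.num.1
  omega

lemma Hyp.mv {C : Ctx} {n : ℕ} (H : Hyp C n) (i : ℕ) :
    Iso C.q (decM C.W (C.mvT.get i).1) (C.mvT.get i).2 := by
  have := H.ok
  simp only [Ctx.okB, Bool.and_eq_true] at this
  intro u v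
  simpa using simB_sound (Tr.all_get this.1.2 i) u v

lemma Hyp.ts {C : Ctx} {n : ℕ} (H : Hyp C n) (i : ℕ) :
    Sim C.D C.q (decM C.W (C.tsT.get i).1) C.sn (C.sd * ((C.tsT.get i).2 : ℤ) ^ 2) ∧
      Bd 1000 (decM C.W (C.tsT.get i).1).b ∧ Bd 1000 (decM C.W (C.tsT.get i).1).c := by
  have := H.ok
  simp only [Ctx.okB, Bool.and_eq_true] at this
  have h := Tr.all_get this.2 i
  simp only [Bool.and_eq_true, decide_eq_true_eq] at h
  exact ⟨simB_sound h.1, h.2⟩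

section

variable {C : Ctx} {n : ℕ} {v0 : V} {G : Prop} {ih : Rec} {r : VN} {B : MN}
  {ps : List (MN × ℕ)} {ls : List (VN × Bool)} {cs : List (VN × VN)} {acc : MN} {da w code : ℕ}
  {k : ℕ → Bool}

lemma pos_sound (H : Hyp C n) {k : MN → ℕ → Bool} (h : pos C ps w k = true) :
    ∃ g d, k g d = true ∧ ((∀ g ∈ ps, PosOK C g) → PosOK C (g, d)) := by
  obtain ⟨g, hg, h1⟩ := getL_sound h
  rw [Tr.getK_eq, fN_eq, mcK_eq] at h1
  refine ⟨_, _, h1, fun hp => ?_⟩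
  obtain ⟨A, a1, a2⟩ := hp g hg
  refine ⟨_, mcN_cg (decM_cg _ _) a1, ?_⟩
  have := (H.mv (f2 w)).mul a2
  simpa using this

lemma opMv_sound (H : Hyp C n) (hi : Snd (Inv C n v0) G ih)
    (h : opMv C ih r B ps ls cs acc da w code k = true) :
    (Inv C n v0 ⟨r, B, ps, ls, cs, acc, da⟩ → G) ∧ ∃ c, k c = true := by
  obtain ⟨g, d, h1, h2⟩ := pos_sound H h
  obtain ⟨h3, h4⟩ := hi _ _ _ h1
  refine ⟨fun ⟨v, a1, a2, a3, a4⟩ => h3 ⟨v, a1, a2, ?_, a4⟩, h4⟩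
  exact List.forall_mem_cons.2 ⟨h2 a3, a3⟩

lemma row_bd (H : Hyp C n) {A : M} {d : ℕ} (hA : Iso C.q A d) (hd : d ≤ C.Dm) {u : V}
    (hu : Bd 1000 u) : Bd (6000 * C.Dm) (mv (tr A) u) := by
  obtain ⟨b1, b2, b3⟩ := hA.bd H.pos (by positivity)
  have e : ∀ a : V, dot a u = dot u a := fun a => by simp only [dot]; ring
  have hd' : (d : ℤ) ≤ C.Dm := by exact_mod_cast hd
  refine ⟨?_, ?_, ?_⟩ <;> simp only [mv, e]
  · linarith [dot_bd hu b1]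
  · linarith [dot_bd hu b2]
  · linarith [dot_bd hu b3]

lemma opTs_sound (H : Hyp C n) (hi : Snd (Inv C n v0) G ih)
    (h : opTs C ih r B ps ls cs acc da w code k = true) :
    (Inv C n v0 ⟨r, B, ps, ls, cs, acc, da⟩ → G) ∧ ∃ c, k c = true := by
  obtain ⟨g, hg, h1⟩ := getL_sound h
  simp only [Tr.getK_eq, fN_eq, andB_iff, mvK_eq, dvB_iff, Nat.ble_eq, Nat.mul_eq] at h1
  obtain ⟨c1, c2, c3, c4, c5⟩ := h1
  obtain ⟨t1, t2, t3⟩ := H.ts (f2 w)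
  generalize C.tsT.get (f2 w) = t at *
  have key : ∀ v, SV C n v → Lat C.W v r B → PosOK C g → ∃ f f', Cg C.W (mvN C.W g.1 t.1.b) f ∧
      Cg C.W (mvN C.W g.1 t.1.c) f' ∧ Bd (6000 * C.Dm) f ∧ Bd (6000 * C.Dm) f' ∧
      ((C.two = true ∧ dot f v < 0) ∨ dot f' v < 0) := by
    rintro v a1 a2 ⟨A, b1, b2⟩
    have g1 := mvN_cg b1 (decM_cg C.W t.1).2.1
    have g2 := mvN_cg b1 (decM_cg C.W t.1).2.2
    refine ⟨_, _, g1, g2, row_bd H b2 c2 t2, row_bd H b2 c2 t3, ?_⟩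
    obtain ⟨-, -, -, -, -, -, -, -, -, -, m1, m2, -⟩ := H.num
    have d1 := cg_sound ((Nat.mul_dvd_mul_left _ m1).trans c1) g1 (Int.ModEq.refl _) a2 c3
    have d2 := cg_sound ((Nat.mul_dvd_mul_left _ m2).trans c1) g2 (Int.ModEq.refl _) a2 c4
    rw [dot_tr] at d1 d2 ⊢
    rw [dot_tr]
    refine test_sound H.num H.bad t1 (by rw [b2.Q, a1.1]) ?_ d1 d2
    intro h0
    rw [h0, zero_mul, zero_dvd_iff] at c1
    exact H.W_ne c1
  cases ht : C.two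
  · rw [ht] at c5
    obtain ⟨h3, h4⟩ := hi _ _ _ c5
    refine ⟨fun ⟨v, a1, a2, a3, a4, a5⟩ => h3 ⟨v, a1, a2, a3, ?_, a5⟩, h4⟩
    obtain ⟨f, f', -, k2, -, k4, k5⟩ := key v a1 a2 (a3 g hg)
    have k6 : dot f' v < 0 := k5.resolve_left (by simp [ht])
    exact List.forall_mem_cons.2 ⟨⟨f', k2, k4, k6.le, fun _ => k6⟩, a4⟩
  · rw [ht] at c5
    obtain ⟨h3, h4⟩ := hi _ _ _ c5
    refine ⟨fun ⟨v, a1, a2, a3, a4, a5, a6⟩ => h3 ⟨v, a1, a2, a3, a4, ?_, a6⟩, h4⟩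
    obtain ⟨f, f', k1, k2, k3, k4, k5⟩ := key v a1 a2 (a3 g hg)
    exact List.forall_mem_cons.2 ⟨⟨f, f', k1, k2, k3, k4, k5.imp_left And.right⟩, a5⟩

lemma opSp_sound (H : Hyp C n) (hi : Snd (Inv C n v0) G ih)
    (h : opSp C ih r B ps ls cs acc da w code k = true) :
    (Inv C n v0 ⟨r, B, ps, ls, cs, acc, da⟩ → G) ∧ ∃ c, k c = true := by
  obtain ⟨c, hc, h1⟩ := getL_sound h
  obtain ⟨h2, c', h3⟩ := hi _ _ _ h1
  rw [lcK_eq] at h3
  obtain ⟨h4, h5⟩ := hi _ _ _ h3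
  refine ⟨fun ⟨v, a1, a2, a3, a4, a5, a6⟩ => ?_, h5⟩
  obtain ⟨f, g, k1, k2, k3, k4, k5⟩ := a5 c hc
  by_cases hg : dot g v < 0
  · exact h2 ⟨v, a1, a2, a3, List.forall_mem_cons.2 ⟨⟨g, k2, k4, hg.le, fun _ => hg⟩, a4⟩, a5, a6⟩
  · have hf := k5.resolve_right hg
    refine h4 ⟨v, a1, a2, a3, List.forall_mem_cons.2 ⟨⟨f, k1, k3, hf.le, fun _ => hf⟩,
      List.forall_mem_cons.2 ⟨⟨_, lcN_cg (neg_one_cg H.num.1) k2 (Int.ModEq.refl _) k2, ?_, ?_,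
      by simp⟩, a4⟩⟩, a5, a6⟩
    · simpa [Bd, lc] using k4
    · simp only [dot, lc] at hg ⊢
      push_cast
      linarith

lemma pick_pos {s : Bool} {m : ℕ} {t : ℤ} (h0 : t ≤ 0) (h1 : s = true → t < 0) :
    (m : ℤ) * t ≤ -(pick s m : ℕ) := by
  cases s
  · simpa [pick] using mul_nonpos_of_nonneg_of_nonpos (Int.natCast_nonneg m) h0
  · have := h1 rfl
    simp only [pick]
    nlinarith [Int.natCast_nonneg m]

lemma opFk_sound (H : Hyp C n) (h : opFk C ls w code k = true) :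
    (Inv C n v0 ⟨r, B, ps, ls, cs, acc, da⟩ → G) ∧ ∃ c, k c = true := by
  obtain ⟨a, ha, h1⟩ := getL_sound h
  obtain ⟨b, hb, h1⟩ := getL_sound h1
  obtain ⟨c, hc, h1⟩ := getL_sound h1
  obtain ⟨d, hd, h1⟩ := getL_sound h1
  simp only [fN_eq, andB_iff, Nat.ble_eq, Nat.add_eq] at h1
  obtain ⟨c1, c2, c3, c4, c5, c6⟩ := h1
  refine ⟨fun ⟨v, _, _, _, a4, _⟩ => ?_, _, c6⟩
  exfalso
  obtain ⟨fa, a1, a2, a3, a5⟩ := a4 a ha
  obtain ⟨fb, b1, b2, b3, b5⟩ := a4 b hb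
  obtain ⟨fc, e1, e2, e3, e5⟩ := a4 c hc
  obtain ⟨fd, d1, d2, d3, d5⟩ := a4 d hd
  obtain ⟨n1, n2, n3, -⟩ := H.num
  have key : ∀ {x y z : VN} {x' y' z' : V}, Cg C.W x x' → Cg C.W y y' → Cg C.W z z' →
      Bd (6000 * C.Dm) x' → Bd (6000 * C.Dm) y' → Bd (6000 * C.Dm) z' →
      detN C.W C.W1 x y z ≤ C.H → det3 x' y' z' = detN C.W C.W1 x y z := by
    intro x y z x' y' z' q1 q2 q3 q4 q5 q6 q7
    refine eq_of_cg (detN_cg n1 q1 q2 q3).symm ?_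
    have q8 := abs_le.1 (det3_bd q4 q5 q6)
    have q9 : (12 : ℤ) * (6000 * C.Dm) ^ 3 < C.W := by exact_mod_cast n3
    have q10 : 2 * (detN C.W C.W1 x y z : ℤ) ≤ C.W := by exact_mod_cast (by omega)
    have q11 := Int.natCast_nonneg (detN C.W C.W1 x y z)
    rw [abs_lt]
    constructor <;> linarith [q8.1, q8.2]
  have e := farkas_id fa fb fc fd v
  rw [key b1 e1 d1 b2 e2 d2 c1, key e1 a1 d1 e2 a2 d2 c2, key a1 b1 d1 a2 b2 d2 c3,
    key b1 a1 e1 b2 a2 e2 c4] at e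
  have c7 : (1 : ℤ) ≤ (pick a.2 (detN C.W C.W1 b.1 c.1 d.1) : ℕ) +
      (pick b.2 (detN C.W C.W1 c.1 a.1 d.1) : ℕ) + (pick c.2 (detN C.W C.W1 a.1 b.1 d.1) : ℕ) +
      (pick d.2 (detN C.W C.W1 b.1 a.1 c.1) : ℕ) := by exact_mod_cast c5
  linarith [pick_pos (m := detN C.W C.W1 b.1 c.1 d.1) a3 a5,
    pick_pos (m := detN C.W C.W1 c.1 a.1 d.1) b3 b5,
    pick_pos (m := detN C.W C.W1 a.1 b.1 d.1) e3 e5,
    pick_pos (m := detN C.W C.W1 b.1 a.1 c.1) d3 d5]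

lemma opBr_sound (hi : Snd (Inv C n v0) G ih)
    (h : opBr C ih r B ps ls cs acc da w code k = true) :
    (Inv C n v0 ⟨r, B, ps, ls, cs, acc, da⟩ → G) ∧ ∃ c, k c = true := by
  simp only [opBr, fN_eq, andB_iff, Nat.ble_eq] at h
  by_cases hI : Inv C n v0 ⟨r, B, ps, ls, cs, acc, da⟩
  · obtain ⟨v, a1, a2, a3⟩ := hI
    obtain ⟨a, b, c, h1, h2⟩ := rot_sound (W := C.W) (v := v) (r := r) h.2
    simp only [lcK_eq] at h1
    obtain ⟨h3, h4⟩ := kids_sound (fun r' => Inv C n v0 ⟨r', _, ps, ls, cs, acc, da⟩ → G)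
      (fun r' code k hh => hi _ _ _ hh) _ _ _ _ h1
    refine ⟨fun _ => ?_, h3⟩
    obtain ⟨s, hs, h5⟩ := lat_refine (h1 := f2 w) (h2 := f3 w) h.1 (h2 a2)
    obtain ⟨r', h6, h7⟩ := h4 s hs
    exact h6 ⟨v, a1, h5 r' h7, a3⟩
  · obtain ⟨a, b, c, h1, -⟩ := rot_sound (W := C.W) (v := v0) (r := r) h.2
    simp only [lcK_eq] at h1
    exact ⟨fun h => absurd h hI, (kids_sound (fun _ => True)
      (fun r' code k hh => ⟨trivial, (hi _ _ _ hh).2⟩) _ _ _ _ h1).1⟩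

lemma Q_cg (q : F) {W : ℕ} {u v : V} (h : u.x ≡ v.x [ZMOD W] ∧ u.y ≡ v.y [ZMOD W] ∧
    u.z ≡ v.z [ZMOD W]) : q.Q u ≡ q.Q v [ZMOD W] :=
  ((((((h.1.pow 2).mul_left _).add ((h.2.1.pow 2).mul_left _)).add ((h.2.2.pow 2).mul_left _)).add
    ((h.2.1.mul h.2.2).mul_left _)).add ((h.1.mul h.2.2).mul_left _)).add
    ((h.1.mul h.2.1).mul_left _)

lemma opQd_sound (H : Hyp C n) (h : opQd C r B w code k = true) :
    (Inv C n v0 ⟨r, B, ps, ls, cs, acc, da⟩ → G) ∧ ∃ c, k c = true := by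
  simp only [opQd, fN_eq, andB_iff, dvB_iff] at h
  obtain ⟨c1, c2, c3, c4, c5, c6, c7, c8, c9, c10, c11, c12⟩ := h
  generalize Nat.shiftRight w 4 = m at *
  cases hd : dvB m (Nat.add (QN C.q r) (Nat.mul C.W1 C.T0))
  · rw [hd] at c12
    refine ⟨fun ⟨v, a1, ⟨s, t, u, a2⟩, _⟩ => ?_, _, c12⟩
    exfalso
    have hd' : ¬ m ∣ QN C.q r + C.W1 * C.T0 := fun hh => by
      have := (dvB_iff _ _).2 hh
      rw [show QN C.q r + C.W1 * C.T0 = Nat.add (QN C.q r) (Nat.mul C.W1 C.T0) from rfl, hd] at this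
      exact absurd this (by simp)
    apply hd'
    have e1 := Q_cg C.q (u := ⟨_, _, _⟩) a2
    rw [a1.1] at e1
    obtain ⟨e2, he2⟩ := (Int.natCast_dvd_natCast.2 c2).trans e1.dvd
    rw [← Int.natCast_dvd_natCast] at c1 c2 c3 c4 c5 c6 c7 c8 c9 c10 c11 ⊢
    obtain ⟨x1, c1⟩ := c1
    obtain ⟨x2, c2⟩ := c2
    obtain ⟨x3, c3⟩ := c3
    obtain ⟨x4, c4⟩ := c4
    obtain ⟨x5, c5⟩ := c5
    obtain ⟨x6, c6⟩ := c6
    obtain ⟨x7, c7⟩ := c7
    obtain ⟨x8, c8⟩ := c8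
    obtain ⟨x9, c9⟩ := c9
    obtain ⟨x10, c10⟩ := c10
    obtain ⟨x11, c11⟩ := c11
    have hW : (C.W1 : ℤ) + 1 = C.W := by exact_mod_cast H.num.1
    refine ⟨x2 * C.T0 + x1 * n - e2 - s * x3 - t * x4 - u * x5 - s ^ 2 * x6 - t ^ 2 * x7 -
      u ^ 2 * x8 - s * t * x9 - s * u * x10 - t * u * x11, ?_⟩
    simp only [QN, BN, F.Q] at *
    push_cast at *
    linear_combination C.T0 * hW + C.T0 * c2 + n * c1 - he2 - s * c3 - t * c4 - u * c5 -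
      s ^ 2 * c6 - t ^ 2 * c7 - u ^ 2 * c8 - s * t * c9 - s * u * c10 - t * u * c11
  · rw [hd] at c12
    exact absurd c12 (by simp)

lemma memb_sound (H : Hyp C n) {k : MN → ℕ → ℕ → Cell → Bool} (h : memb C r B ps w k = true) :
    ∃ g d ci, k g d ci (cellOf C ci) = true ∧ ∀ v, SV C n v → Lat C.W v r B →
      (∀ g ∈ ps, PosOK C g) → ∃ v' A, SV C n v' ∧ InCell (cellOf C ci) v' ∧
        CgM C.W g (tr A) ∧ Iso C.q A d ∧ sm d v' = mv A v := by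
  obtain ⟨g, d, h1, h2⟩ := pos_sound H h
  simp only [fN_eq, getCell_eq, andB_iff, dvB_iff, lcK_eq, Nat.mul_eq, Nat.add_eq] at h1
  obtain ⟨c1, c2, c3, c4, c5⟩ := h1
  refine ⟨g, d, _, c5, fun v a1 a2 a3 => ?_⟩
  obtain ⟨A, b1, b2⟩ := h2 a3
  generalize cellOf C (Nat.shiftRight w 20) = c at *
  have b3 : CgM C.W (trN g) A := trN_cg b1
  have n1 := neg_one_cg H.num.1
  have neg : ∀ x : ℕ, ((C.W1 * x : ℕ) : ℤ) ≡ -x [ZMOD C.W] := fun x => by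
    simpa using n1.mul_right (x : ℤ)
  have g2 := lcN_cg (Int.ModEq.refl (c.i : ℤ)) b3.2.1 (neg c.f) b3.2.2
  have g0 := lcN_cg (neg c.b) g2 (neg (c.c * c.e)) b3.2.2
  have g1 := lcN_cg (Int.ModEq.refl ((c.e * c.i : ℕ) : ℤ)) b3.1 (Int.ModEq.refl ((1 : ℕ) : ℤ)) g0
  have p3 := neg (d * c.r3)
  have p2 := (neg (d * c.i * c.r2)).add ((neg c.f).mul p3)
  have p1 := ((neg (d * c.i * c.e * c.r1)).add ((neg c.b).mul p2)).add ((neg (c.c * c.e)).mul p3)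
  obtain ⟨u, hu⟩ := cg_sound ((((Dvd.intro _ rfl)).trans (Dvd.intro _ rfl)).trans c1) b3.2.2 p3
    a2 c2
  obtain ⟨t, ht⟩ := cg_sound ((Dvd.intro _ rfl).trans c1) g2 (by exact_mod_cast p2) a2 c3
  obtain ⟨s, hs⟩ := cg_sound c1 g1 (by exact_mod_cast p1) a2 c4
  have hne : d * c.i * c.e * c.a ≠ 0 := by
    intro h0
    rw [h0, zero_dvd_iff] at c1
    exact H.W_ne c1
  simp only [mul_ne_zero_iff] at hne
  obtain ⟨⟨⟨z1, z2⟩, z3⟩, -⟩ := hne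
  have z1' : (d : ℤ) ≠ 0 := by exact_mod_cast z1
  have z2' : (c.i : ℤ) ≠ 0 := by exact_mod_cast z2
  have z3' : (c.e : ℤ) ≠ 0 := by exact_mod_cast z3
  have e : sm d ⟨c.r1 + s * c.a + t * c.b + u * c.c, c.r2 + t * c.e + u * c.f, c.r3 + u * c.i⟩ =
      mv A v := by
    simp only [dot, lc] at hu ht hs
    push_cast at hu ht hs
    ext <;> simp only [sm, mv, dot]
    · apply mul_left_cancel₀ (mul_ne_zero z3' z2')
      linear_combination -hs - c.b * ht - c.c * c.e * hu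
    · apply mul_left_cancel₀ z2'
      linear_combination -ht - c.f * hu
    · linear_combination -hu
  refine ⟨_, A, ⟨?_, ?_⟩, ⟨s, t, u, rfl, rfl, rfl⟩, b1, b2, e⟩
  · rw [b2.Q_eq z1' e, a1.1]
  · exact b2.prim H.W_ne ((((Dvd.intro _ rfl).trans (Dvd.intro _ rfl)).trans
      (Dvd.intro _ rfl)).trans c1) H.num.2.2.2.1 e a1.2

lemma opGo_sound (H : Hyp C n) {cur : ℕ} (hE : ∀ c < cur, Emp C n c)
    (h : opGo C cur r B ps w code k = true) :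
    (Inv C n v0 ⟨r, B, ps, ls, cs, acc, da⟩ → G) ∧ ∃ c, k c = true := by
  obtain ⟨g, d, ci, h1, h2⟩ := memb_sound H h
  simp only [andB_iff, Nat.ble_eq] at h1
  refine ⟨fun ⟨v, a1, a2, a3, _⟩ => ?_, _, h1.2⟩
  obtain ⟨v', A, b1, b2, -⟩ := h2 v a1 a2 a3
  exact absurd b2 (hE ci h1.1 v' b1)

lemma init_ps (C : Ctx) : ∀ g ∈ [(idN, 1)], PosOK C g := by
  intro g hg
  rw [List.mem_singleton] at hg
  subst hg
  exact ⟨idM, idN_cg _, by simpa using Iso.id C.q⟩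

lemma comp_eq {A A' : M} {d da : ℕ} {v0 v v' : V} (h : sm da v = mv A v0)
    (h' : sm d v' = mv A' v) : sm ((da * d : ℕ) : ℤ) v' = mv (mm A' A) v0 := by
  rw [mv_mm, ← h, mv_sm, ← h', sm_sm]; push_cast; rfl

lemma opRb_sound (H : Hyp C n) (hi : Snd (Inv C n v0) G ih)
    (h : opRb C ih r B ps acc da w code k = true) :
    (Inv C n v0 ⟨r, B, ps, ls, cs, acc, da⟩ → G) ∧ ∃ c, k c = true := by
  obtain ⟨g, d, ci, h1, h2⟩ := memb_sound H h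
  rw [mcK_eq, fN_eq] at h1
  obtain ⟨h3, h4⟩ := hi _ _ _ h1
  refine ⟨fun ⟨v, a1, a2, a3, _, _, A, a4, a5, a6⟩ => ?_, h4⟩
  obtain ⟨v', A', b1, b2, b3, b4, b5⟩ := h2 v a1 a2 a3
  refine h3 ⟨v', b1, b2.lat _, init_ps C, by simp, by simp, mm A' A, mcN_cg (trN_cg b3) a4, ?_,
    comp_eq a6 b5⟩
  simpa using b4.mul a5

lemma eqV_iff {u v : VN} (h : eqV u v = true) : u = v := by
  simp only [eqV, andB_iff, Nat.beq_eq] at h
  cases u; cases v; simp_all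

lemma opLp_sound (H : Hyp C n) {cur ld : ℕ} {lg : MN}
    (h : opLp C cur lg ld r B ps acc da w code k = true) :
    (Inv C n v0 ⟨r, B, ps, ls, cs, acc, da⟩ → Goal C n cur lg ld v0) ∧ ∃ c, k c = true := by
  obtain ⟨g, d, ci, h1, h2⟩ := memb_sound H h
  simp only [mcK_eq, andB_iff, Nat.beq_eq, Nat.ble_eq, Nat.mul_eq] at h1
  obtain ⟨rfl, rfl, c3, c4, c5, c6, c7⟩ := h1
  refine ⟨fun ⟨v, a1, a2, a3, _, _, A, a4, a5, a6⟩ => ?_, _, c7⟩
  obtain ⟨v', A', b1, b2, b3, b4, b5⟩ := h2 v a1 a2 a3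
  have b6 := mcN_cg (trN_cg b3) a4
  refine ⟨c3, v', mm A' A, b1, b2, ⟨eqV_iff c4 ▸ b6.1, eqV_iff c5 ▸ b6.2.1, eqV_iff c6 ▸ b6.2.2⟩,
    ?_, comp_eq a6 b5⟩
  simpa using b4.mul a5

end

lemma check_sound {C : Ctx} {n : ℕ} (H : Hyp C n) {cur ld : ℕ} {lg : MN}
    (hE : ∀ c < cur, Emp C n c) (v0 : V) (fuel : ℕ) :
    Snd (Inv C n v0) (Goal C n cur lg ld v0) (check C cur lg ld fuel) := by
  induction fuel with
  | zero => intro s code k h; exact absurd h (by simp [check])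
  | succ f ih =>
    rintro ⟨r, B, ps, ls, cs, acc, da⟩ code k h
    rcases sel_true h with h | h | h | h | h | h | h | h | h
    exacts [opMv_sound H ih h, opTs_sound H ih h, opFk_sound H h, opGo_sound H hE h,
      opBr_sound ih h, opSp_sound H ih h, opQd_sound H h, opRb_sound H ih h, opLp_sound H h]

lemma cellChk_sound {C : Ctx} {n : ℕ} (H : Hyp C n) {i ld code : ℕ} {lg : MN} {k : ℕ → Bool}
    (hE : ∀ c < i, Emp C n c) (h : cellChk C i lg ld code k = true) :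
    (∀ v, SV C n v → InCell (cellOf C i) v → Goal C n i lg ld v) ∧ ∃ c, k c = true := by
  rw [cellChk, getCell_eq] at h
  refine ⟨fun v h1 h2 => (check_sound H hE v _ _ _ _ h).1 ⟨v, h1, h2.lat _, init_ps C, by simp,
    by simp, idM, idN_cg _, by simpa using Iso.id C.q, by simp [sm_one, mv_id]⟩,
    (check_sound H hE ⟨0, 0, 0⟩ _ _ _ _ h).2⟩

lemma emp_succ {C : Ctx} {n i : ℕ} (hE : ∀ c < i, Emp C n c) (h : Emp C n i) :
    ∀ c < i.succ, Emp C n c := fun c hc => by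
  rcases Nat.lt_succ_iff_lt_or_eq.1 hc with h1 | rfl
  exacts [hE c h1, h]

lemma run_sound {C : Ctx} {n : ℕ} (H : Hyp C n) (m : ℕ) : ∀ {i code : ℕ} {k : ℕ → Bool},
    (∀ c < i, Emp C n c) → run C m i code k = true → ∃ i', (∀ c < i', Emp C n c) ∧ k i' = true := by
  induction m with
  | zero => exact fun hE h => ⟨_, hE, h⟩
  | succ m ih =>
    intro i code k hE h
    obtain ⟨h1, c, h2⟩ := cellChk_sound H hE h
    exact ih (emp_succ hE fun v a b => absurd (h1 v a b).1 (by omega)) h2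

lemma gcd3_bezout (a : V) : ∃ y : V, dot y a = gcd3 a := by
  have h1 := Int.gcd_eq_gcd_ab a.x a.y
  have h2 := Int.gcd_eq_gcd_ab (Int.gcd a.x a.y) a.z
  refine ⟨⟨Int.gcdA a.x a.y * Int.gcdA (Int.gcd a.x a.y) a.z,
    Int.gcdB a.x a.y * Int.gcdA (Int.gcd a.x a.y) a.z, Int.gcdB (Int.gcd a.x a.y) a.z⟩, ?_⟩
  have e : (gcd3 a : ℤ) = (Int.gcd (Int.gcd a.x a.y) a.z : ℕ) := rfl
  rw [e, h2]
  simp only [dot]
  linear_combination -Int.gcdA (Int.gcd a.x a.y) a.z * h1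

lemma cross_rows {N : M} {v : V} (h : mv N v = ⟨0, 0, 0⟩) (s : ℕ) :
    cross v (crossRows N s) = ⟨0, 0, 0⟩ := by
  have hx := congrArg V.x h
  have hy := congrArg V.y h
  have hz := congrArg V.z h
  simp only [mv, dot] at hx hy hz
  unfold crossRows
  split_ifs <;> ext <;> simp only [cross]
  · linear_combination N.a.x * hy - N.b.x * hx
  · linear_combination N.a.y * hy - N.b.y * hx
  · linear_combination N.a.z * hy - N.b.z * hx
  · linear_combination N.b.x * hz - N.c.x * hy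
  · linear_combination N.b.y * hz - N.c.y * hy
  · linear_combination N.b.z * hz - N.c.z * hy
  · linear_combination N.c.x * hx - N.a.x * hz
  · linear_combination N.c.y * hx - N.a.y * hz
  · linear_combination N.c.z * hx - N.a.z * hz

lemma loop_sound {C : Ctx} {n i : ℕ} (H : Hyp C n) {l : Loop} (hl : loopOK C l)
    (h : ∀ v, SV C n v → InCell (cellOf C i) v → Goal C n i l.g l.d v) : Emp C n i := by
  intro v0 h1 h2
  obtain ⟨c1, c2, c3, ⟨c4, c5, c6⟩, c7, c8, c9, c10, c11⟩ := hl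
  have hA := trN_cg (decM_cg C.W l.g)
  generalize tr (decM C.W l.g) = A at *
  have hε : (if l.neg then -1 else 1 : ℤ) = 1 ∨ (if l.neg then -1 else 1 : ℤ) = -1 := by
    cases l.neg <;> simp
  generalize (if l.neg then -1 else 1 : ℤ) = ε at *
  obtain ⟨v, ⟨a1, -⟩, a2⟩ := axis_of_closed H.pos (A := A) (d := l.d) (by exact_mod_cast c1) hε
    (Int.isCoprime_iff_gcd_eq_one.2 c3) c7 (fun v => SV C n v ∧ InCell (cellOf C i) v)
    (fun v hv => hv.1.1) (fun v hv => by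
      obtain ⟨-, w, A', b1, b2, b3, b4, b5⟩ := h v hv.1 hv.2
      refine ⟨w, ⟨b1, b2⟩, ?_⟩
      obtain ⟨⟨d1, d2, d3⟩, ⟨d4, d5, d6⟩, d7, d8, d9⟩ := b4.bd H.pos (by positivity)
      have c2' : 4 * (l.d : ℤ) < C.W := by exact_mod_cast c2
      have key : ∀ {m : ℕ} {x y : ℤ}, (m : ℤ) ≡ x [ZMOD C.W] → (m : ℤ) ≡ y [ZMOD C.W] →
          |x| ≤ 2 * l.d → |y| ≤ 2 * l.d → x = y := fun e1 e2 e3 e4 => by
        refine eq_of_cg (e1.symm.trans e2) ?_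
        rw [abs_le] at e3 e4
        rw [abs_lt]
        constructor <;> omega
      have : A = A' := by
        ext
        exacts [key hA.1.1 b3.1.1 c4.1 d1, key hA.1.2.1 b3.2.1.1 c4.2.1 d4,
          key hA.1.2.2 b3.2.2.1 c4.2.2 d7, key hA.2.1.1 b3.1.2.1 c5.1 d2,
          key hA.2.1.2.1 b3.2.1.2.1 c5.2.1 d5, key hA.2.1.2.2 b3.2.2.2.1 c5.2.2 d8,
          key hA.2.2.1 b3.1.2.2 c6.1 d3, key hA.2.2.2.1 b3.2.1.2.2 c6.2.1 d6,
          key hA.2.2.2.2 b3.2.2.2.2 c6.2.2 d9]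
      rw [this, b5]) ⟨h1, h2⟩
  have a3 := cross_rows a2 l.s
  generalize crossRows (subS A (ε * l.d)) l.s = kv at *
  generalize divV kv (gcd3 kv) = a at *
  obtain ⟨y, hy⟩ := gcd3_bezout a
  rw [c10] at hy
  have g0 : (gcd3 kv : ℤ) ≠ 0 := by exact_mod_cast c8
  generalize (gcd3 kv : ℤ) = g at *
  subst c9
  have hx := congrArg V.x a3
  have hy' := congrArg V.y a3
  have hz := congrArg V.z a3
  simp only [cross, sm] at hx hy' hz
  have e1 : v.y * a.z - v.z * a.y = 0 := mul_left_cancel₀ g0 (by linear_combination hx)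
  have e2 : v.z * a.x - v.x * a.z = 0 := mul_left_cancel₀ g0 (by linear_combination hy')
  have e3 : v.x * a.y - v.y * a.x = 0 := mul_left_cancel₀ g0 (by linear_combination hz)
  have e : v = sm (dot y v) a := by
    simp only [dot] at hy
    push_cast at hy
    ext <;> simp only [sm, dot]
    · linear_combination -v.x * hy + y.y * e3 - y.z * e2
    · linear_combination -v.y * hy - y.x * e3 + y.z * e1
    · linear_combination -v.z * hy + y.x * e2 - y.y * e1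
  generalize dot y v = m at e
  have hQ : (C.T0 : ℤ) + C.Mo * n = m ^ 2 * C.q.Q a := by rw [← a1.1, e, Q_sm]
  have hm : m.natAbs = 1 := by
    by_contra hm
    obtain ⟨p, hp, hpm⟩ := Nat.exists_prime_and_dvd hm
    have hpm' : (p : ℤ) ∣ m := Int.natCast_dvd.2 hpm
    by_cases hW : p ∣ C.W
    · exact H.sq p hp hW (hQ ▸ (pow_dvd_pow_of_dvd hpm' 2).mul_right _)
    · exact a1.2 p hp hW (e ▸ ⟨hpm'.mul_right _, hpm'.mul_right _, hpm'.mul_right _⟩)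
  have hm2 : m ^ 2 = 1 := by rw [← Int.natAbs_sq, hm]; norm_num
  rw [hm2, one_mul] at hQ
  rcases c11 with c | c | c
  · exact c ⟨n, by linarith⟩
  · have : (0 : ℤ) ≤ C.Mo * n := by positivity
    omega
  · refine H.bad ⟨l.z, l.x, l.y, mul_left_cancel₀ (a := (C.Mo : ℤ)) ?_ (by linarith)⟩
    exact_mod_cast H.num.2.2.2.2.2.2.2.2.2.2.2.2.2.2.1

theorem chk_sound {C : Ctx} {n : ℕ} (H : Hyp C n) {it : Items} : ∀ {i e : ℕ},
    chk C it i e = true → (∀ c < i, Emp C n c) → ∀ c < e, Emp C n c := by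
  induction it with
  | nil => exact fun h hE c hc => hE c (lt_of_lt_of_le hc (Nat.ble_eq ▸ h))
  | run m code it ih =>
    intro i e h hE
    obtain ⟨i', h1, h2⟩ := run_sound H m hE h
    exact ih h2 h1
  | loop code l it ih =>
    intro i e h hE
    obtain ⟨h1, h2⟩ := (andB_iff _ _).1 h
    obtain ⟨h3, c, h4⟩ := cellChk_sound H hE h2
    exact ih h4 (emp_succ hE (loop_sound H (of_decide_eq_true h1) h3))

end Pool.Agent.P.MP_2ce53a_nt
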