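import Mathlib
import Pool.Agent.Lib.Legendre.Ternary
import Pool.Agent.P.MP_2ce53a_nt.Sound

/-!
Primitive vectors of a given norm in three lattices of class number one.
-/

namespace Pool.Agent.P.MP_2ce53a_nt

open Pool.Agent.Lib.Legendre

/-- The descent of Aubry, Davenport and Cassels. -/
theorem adc {q : F} (hq : q.Pos)
    (hc : ∀ (d : ℤ) (v : V), 0 < d → ∃ y, q.Q (vsub v (sm d y)) < d ^ 2) (T : ℤ) (d : ℕ) :
    ∀ v, d ≠ 0 → q.Q v = (d : ℤ) ^ 2 * T → ∃ w, q.Q w = T := by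
  induction d using Nat.strong_induction_on with
  | _ d ih =>
    intro v hd hv
    have hd' : (0 : ℤ) < d := by exact_mod_cast Nat.pos_of_ne_zero hd
    obtain ⟨y, hy⟩ := hc d v hd'
    have e : q.Q (vsub v (sm d y)) = d * (d * T - q.B y v + d * q.Q y) := by
      have : q.Q (vsub v (sm d y)) = q.Q v - d * q.B y v + d ^ 2 * q.Q y := by
        simp only [F.Q, F.B, vsub, sm]; ring
      rw [this, hv]; ring
    obtain ⟨p1, p2, p3⟩ := hq.2.2.2 (vsub v (sm d y))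
    have h0 : 0 ≤ q.Q (vsub v (sm d y)) := by nlinarith [sq_nonneg (vsub v (sm d y)).x]
    obtain ⟨d', hd1⟩ := Int.eq_ofNat_of_zero_le
      ((mul_nonneg_iff_of_pos_left hd').1 (e ▸ h0))
    by_cases hz : d' = 0
    · rw [e, hd1, hz] at p1 p2 p3
      have : v = sm d y := by
        simp only [vsub, Nat.cast_zero, mul_zero] at p1 p2 p3
        ext
        exacts [sub_eq_zero.1 (pow_eq_zero_iff two_ne_zero |>.1 (p1.antisymm (sq_nonneg _))),
          sub_eq_zero.1 (pow_eq_zero_iff two_ne_zero |>.1 (p2.antisymm (sq_nonneg _))),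
          sub_eq_zero.1 (pow_eq_zero_iff two_ne_zero |>.1 (p3.antisymm (sq_nonneg _)))]
      rw [this, Q_sm] at hv
      exact ⟨y, mul_left_cancel₀ (pow_ne_zero 2 hd'.ne') hv⟩
    · refine ih d' ?_ (lc (q.Q y - T) v (2 * T * d - q.B y v) y) hz ?_
      · rw [e, hd1] at hy
        have : (d' : ℤ) < d := by nlinarith
        exact_mod_cast this
      · have : ∀ a b : ℤ, q.Q (lc a v b y) = a ^ 2 * q.Q v + a * b * q.B y v + b ^ 2 * q.Q y := by
          intro a b; simp only [F.Q, F.B, lc]; ring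
        rw [this, hv, ← hd1]; ring

lemma near (a m : ℤ) (hm : 0 < m) : ∃ t : ℤ, 4 * (a - m * t) ^ 2 ≤ m ^ 2 := by
  have h1 := Int.emod_nonneg (2 * a + m) (by omega : 2 * m ≠ 0)
  have h2 := Int.emod_lt_of_pos (2 * a + m) (by omega : 0 < 2 * m)
  have h3 := Int.emod_add_mul_ediv (2 * a + m) (2 * m)
  refine ⟨(2 * a + m) / (2 * m), ?_⟩
  generalize (2 * a + m) / (2 * m) = t at *
  generalize (2 * a + m) % (2 * m) = r at *
  have : 2 * (a - m * t) = r - m := by linarith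
  nlinarith

lemma clear3 (a b c : ℚ) : ∃ (D : ℕ) (x y z : ℤ), D ≠ 0 ∧ a * D = x ∧ b * D = y ∧ c * D = z := by
  refine ⟨a.den * b.den * c.den, a.num * b.den * c.den, b.num * a.den * c.den,
    c.num * a.den * b.den, by simp, ?_, ?_, ?_⟩ <;> push_cast
  · rw [← Rat.mul_den_eq_num a]; ring
  · rw [← Rat.mul_den_eq_num b]; ring
  · rw [← Rat.mul_den_eq_num c]; ring

def F2 : F := ⟨1, 1, 1, 0, 0, 0⟩
def F3 : F := ⟨1, 1, 1, 1, 0, 0⟩
def F5 : F := ⟨1, 1, 2, 1, 0, 1⟩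

lemma F2_pos : F2.Pos := by
  refine ⟨by decide, by decide, by decide, fun v => ?_⟩
  simp only [F.Q, F2]
  push_cast
  refine ⟨?_, ?_, ?_⟩ <;> nlinarith [sq_nonneg v.x, sq_nonneg v.y, sq_nonneg v.z]

lemma F3_pos : F3.Pos := by
  refine ⟨by decide, by decide, by decide, fun v => ?_⟩
  simp only [F.Q, F3]
  push_cast
  refine ⟨?_, ?_, ?_⟩ <;>
    nlinarith [sq_nonneg v.x, sq_nonneg v.y, sq_nonneg v.z, sq_nonneg (v.y + v.z)]

lemma F5_pos : F5.Pos := by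
  refine ⟨by decide, by decide, by decide, fun v => ?_⟩
  simp only [F.Q, F5]
  push_cast
  refine ⟨?_, ?_, ?_⟩
  · nlinarith [sq_nonneg (v.x + v.y), sq_nonneg (v.y + v.z), sq_nonneg v.z]
  · nlinarith [sq_nonneg (2 * v.x + v.y), sq_nonneg (v.y + 2 * v.z), sq_nonneg v.z]
  · nlinarith [sq_nonneg (v.x + v.y), sq_nonneg (v.y + v.z), sq_nonneg v.z, sq_nonneg v.x]

lemma int2 {T : ℤ} (h : Tern 1 T) : ∃ w, F2.Q w = T := by
  obtain ⟨a, b, c, h⟩ := h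
  obtain ⟨D, x, y, z, hD, hx, hy, hz⟩ := clear3 a b c
  refine adc F2_pos (fun d v hd => ?_) T D ⟨x, y, z⟩ hD ?_
  · obtain ⟨s, hs⟩ := near v.x d hd
    obtain ⟨t, ht⟩ := near v.y d hd
    obtain ⟨u, hu⟩ := near v.z d hd
    refine ⟨⟨s, t, u⟩, ?_⟩
    simp only [F.Q, F2, vsub, sm]
    push_cast
    nlinarith
  · simp only [F.Q, F2]
    have : (x : ℚ) ^ 2 + y ^ 2 + z ^ 2 = D ^ 2 * T := by rw [h, ← hx, ← hy, ← hz]; ring
    have : x ^ 2 + y ^ 2 + z ^ 2 = D ^ 2 * T := by exact_mod_cast this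
    push_cast
    linarith

lemma int3 {T : ℤ} (h : Tern 3 T) : ∃ w, F3.Q w = T := by
  obtain ⟨a, b, c, h⟩ := h
  obtain ⟨D, x, y, z, hD, hx, hy, hz⟩ := clear3 a b c
  refine adc F3_pos (fun d v hd => ?_) T D ⟨x, y - z, 2 * z⟩ hD ?_
  · obtain ⟨s, hs⟩ := near v.x d hd
    obtain ⟨u, hu⟩ := near v.z d hd
    obtain ⟨t, ht⟩ := near (2 * v.y + (v.z - d * u)) (2 * d) (by omega)
    refine ⟨⟨s, t, u⟩, ?_⟩
    simp only [F.Q, F3, vsub, sm]
    push_cast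
    nlinarith
  · simp only [F.Q, F3]
    have : (x : ℚ) ^ 2 + y ^ 2 + 3 * z ^ 2 = D ^ 2 * T := by rw [h, ← hx, ← hy, ← hz]; ring
    have : x ^ 2 + y ^ 2 + 3 * z ^ 2 = D ^ 2 * T := by exact_mod_cast this
    push_cast
    linarith

lemma int5 {T : ℤ} {a b c : ℚ} (h : (T : ℚ) = a ^ 2 + 2 * b ^ 2 + 10 * c ^ 2) :
    ∃ w, F5.Q w = T := by
  obtain ⟨D, x, y, z, hD, hx, hy, hz⟩ := clear3 a b c
  refine adc F5_pos (fun d v hd => ?_) T D ⟨x + 2 * z, -4 * z, y + z⟩ hD ?_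
  · obtain ⟨u, hu⟩ := near v.z d hd
    obtain ⟨t, ht⟩ := near (3 * v.y + 2 * (v.z - d * u)) (3 * d) (by omega)
    obtain ⟨s, hs⟩ := near (2 * v.x + (v.y - d * t)) (2 * d) (by omega)
    refine ⟨⟨s, t, u⟩, ?_⟩
    simp only [F.Q, F5, vsub, sm]
    push_cast
    nlinarith
  · simp only [F.Q, F5]
    have : (x : ℚ) ^ 2 + 2 * y ^ 2 + 10 * z ^ 2 = D ^ 2 * T := by
      rw [h, ← hx, ← hy, ← hz]; ring
    have : x ^ 2 + 2 * y ^ 2 + 10 * z ^ 2 = D ^ 2 * T := by exact_mod_cast this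
    push_cast
    linarith

lemma tern_one {T : ℤ} {N : ℕ} (hN : N.Prime) (hN4 : N % 4 = 1) (h : Rep (N : ℤ) T) :
    Tern 1 T := by
  have : Fact N.Prime := ⟨hN⟩
  obtain ⟨a, b, hab⟩ := Nat.Prime.sq_add_sq (p := N) (by omega)
  obtain ⟨g, h, hgh⟩ := h
  have hab' : (a : ℚ) ^ 2 + b ^ 2 = N := by exact_mod_cast hab
  exact ⟨g, h * a, h * b, by rw [hgh]; push_cast; rw [← hab']; ring⟩

lemma jac_swap {a N : ℕ} (ha : Odd a) (hN4 : N % 4 = 1) (h : (a : ℤ) ∣ (N : ℤ) + 1) :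
    jacobiSym a N = ZMod.χ₄ a := by
  rw [← jacobiSym.quadratic_reciprocity_one_mod_four hN4 ha,
    jac_left_congr (b := -1) (by simpa using h), jacobiSym.at_neg_one ha]

theorem ex2 (T : ℕ) (h : T % 4 = 1 ∨ T % 4 = 2) : ∃ w, F2.Q w = T := by
  obtain ⟨a, c, ha, hT, hc, hj⟩ : ∃ (a c : ℕ), Odd a ∧ (T = a ∨ T = 2 * a) ∧ c % 4 = 1 ∧
      ∀ N : ℕ, N % 8 = c % 8 → jacobiSym a N = ZMod.χ₄ a → jacobiSym T N = 1 := by
    rcases h with h | h
    · exact ⟨T, 1, Nat.odd_iff.2 (by omega), Or.inl rfl, rfl, fun N _ e => by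
        rw [e, ZMod.χ₄_nat_one_mod_four h]⟩
    · obtain ⟨a, rfl⟩ : ∃ a, T = 2 * a := ⟨T / 2, by omega⟩
      have key : ∀ N : ℕ, Odd N → jacobiSym (2 * a : ℕ) N = ZMod.χ₈ N * jacobiSym a N := by
        intro N hN
        push_cast
        rw [jacobiSym.mul_left, jacobiSym.at_two hN]
      rcases (by omega : a % 4 = 1 ∨ a % 4 = 3) with h4 | h4
      · refine ⟨a, 1, Nat.odd_iff.2 (by omega), Or.inr rfl, rfl, fun N hN e => ?_⟩
        rw [key N (Nat.odd_iff.2 (by omega)), e, ZMod.χ₄_nat_one_mod_four h4,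
          ZMod.χ₈_nat_mod_eight, hN]
        decide
      · refine ⟨a, 5, Nat.odd_iff.2 (by omega), Or.inr rfl, rfl, fun N hN e => ?_⟩
        rw [key N (Nat.odd_iff.2 (by omega)), e, ZMod.χ₄_nat_three_mod_four h4,
          ZMod.χ₈_nat_mod_eight, hN]
        decide
  have ha0 : (0 : ℤ) < a := by exact_mod_cast ha.pos
  have h8 : IsCoprime (8 : ℤ) a := by
    obtain ⟨b, rfl⟩ := ha
    have : IsCoprime (2 : ℤ) ((2 * b + 1 : ℕ) : ℤ) := ⟨-b, 1, by push_cast; ring⟩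
    exact this.pow_left (m := 3)
  obtain ⟨t, ⟨k1, hk1⟩, ⟨k2, hk2⟩⟩ := crt2 h8 c (-1)
  have hct : IsCoprime t (8 * a) := by
    refine IsCoprime.mul_right ?_ ⟨-1, k2, by linarith⟩
    have : IsCoprime t 2 := ⟨1, -(t / 2), by omega⟩
    exact this.pow_right (n := 3)
  obtain ⟨N, -, hN, k3, hk3⟩ := dirichlet (M := 8 * a) (by positivity) hct 0
  have h1 : (a : ℤ) ∣ (N : ℤ) + 1 := ⟨8 * k3 + k2, by linarith⟩
  have h2 : N % 8 = c % 8 := by
    have : (N : ℤ) = c + 8 * (k1 + a * k3) := by linarith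
    omega
  have h3 : (T : ℤ) ∣ (N : ℤ) + 1 := by
    rcases hT with rfl | rfl
    · exact h1
    · push_cast
      refine IsCoprime.mul_dvd ?_ (by omega) h1
      exact IsCoprime.of_mul_left_left (y := 4) (by simpa using h8)
  refine int2 (tern_one hN (by omega) (legendre_rep T N (by omega) (by exact_mod_cast hN.pos) ?_
    (sq_of_jac hN (hj N h2 (jac_swap ha (by omega) h1))) ⟨1, by rwa [one_pow, add_comm]⟩))
  obtain ⟨k, hk⟩ := h3
  exact ⟨k, -1, by linarith⟩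

theorem ex3 (T : ℕ) (h : T % 3 ≠ 0 ∨ T % 9 = 3) : ∃ w, F3.Q w = T := by
  apply int3
  rcases h with h | h
  · exact tern_of_not_dvd (p := 3) (by norm_num) rfl (y := T) (by omega) (by omega)
  · obtain ⟨y, rfl⟩ : ∃ y, T = 3 * y := ⟨T / 3, by omega⟩
    have := tern_mul_of_sq (p := 3) (by norm_num) rfl (y := y) (by omega) (by omega)
      ⟨1, by omega⟩
    exact_mod_cast this

theorem ex5a (T : ℕ) (h : T % 5 ≠ 0) : ∃ w, F5.Q w = T := by
  have hT : (0 : ℤ) < T := by omega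
  have hc : IsCoprime (4 * T : ℤ) 5 :=
    (coprime_of_prime_not_dvd (p := 5) (by norm_num) (by omega)).symm
  obtain ⟨t, ⟨k1, hk1⟩, ⟨k2, hk2⟩⟩ := crt2 hc (-1) 3
  have hct : IsCoprime t (4 * T * 5) :=
    IsCoprime.mul_right ⟨-1, k1, by linarith⟩ ⟨2, -(2 * k2 + 1), by linarith⟩
  obtain ⟨N, -, hN, k3, hk3⟩ := dirichlet (M := 4 * T * 5) (by positivity) hct 0
  have hN0 : (0 : ℤ) < N := by exact_mod_cast hN.pos
  have h1 : 4 * (T : ℤ) ∣ (N : ℤ) + 1 := ⟨5 * k3 + k1, by linarith⟩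
  have h2 : N % 5 = 3 := by
    have : (N : ℤ) = 3 + 5 * (k2 + 4 * T * k3) := by linarith
    omega
  have h4 : N % 4 = 3 := by
    obtain ⟨k, hk⟩ := h1
    have : (N : ℤ) = 4 * (T * k) - 1 := by linarith
    omega
  obtain ⟨g, u, hg⟩ : Rep (N : ℤ) (T : ℤ) := by
    obtain ⟨k, hk⟩ := h1
    exact legendre_rep T N hT hN0 ⟨4 * k, -1, by linarith⟩
      (sq_of_jac hN (jac_of_neg_one_mod hT ⟨k, hk⟩)) ⟨1, 4 * k, by linarith⟩
  have hj : jacobiSym (-5) N = 1 := by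
    have hNo : Odd N := Nat.odd_iff.2 (by omega)
    have e : jacobiSym 5 N = jacobiSym N 5 :=
      jacobiSym.quadratic_reciprocity_one_mod_four (a := 5) rfl hNo
    rw [jacobiSym.neg _ hNo, ZMod.χ₄_nat_three_mod_four h4, e,
      jac_left_congr (b := 3) (by omega)]
    norm_num
  obtain ⟨s, hs⟩ := sq_of_jac hN hj
  obtain ⟨b, c, hb⟩ : Rep (5 : ℤ) (2 * N : ℤ) := by
    refine legendre_rep (2 * N) 5 (by omega) (by norm_num)
      (coprime_of_prime_not_dvd (p := 5) (by norm_num) (by omega)).symm ⟨1, by omega⟩ ?_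
    have h2N : IsCoprime (2 : ℤ) N := ⟨-(N / 2), 1, by omega⟩
    obtain ⟨t, h5, h6⟩ := crt2 h2N 1 s
    refine ⟨t, h2N.mul_dvd ?_ ?_⟩
    · obtain ⟨k, hk⟩ := h5
      exact ⟨2 * k ^ 2 + 2 * k + 3, by rw [show t = 2 * k + 1 by linarith]; ring⟩
    · have : t ^ 2 + 5 = (t - s) * (t + s) + (s ^ 2 - -5) := by ring
      rw [this]; exact dvd_add (h6.mul_right _) hs
  refine int5 (a := g) (b := b * u / 2) (c := c * u / 2) ?_
  push_cast at hg hb ⊢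
  linear_combination hg + u ^ 2 / 2 * hb

theorem ex5b (T : ℕ) (h : T % 25 = 10 ∨ T % 25 = 15) : ∃ w, F5.Q w = T := by
  obtain ⟨y, rfl⟩ : ∃ y, T = 5 * y := ⟨T / 5, by omega⟩
  have hy : (0 : ℤ) < 2 * y := by omega
  obtain ⟨u, v, huv⟩ : IsCoprime (5 : ℤ) (8 * y) :=
    coprime_of_prime_not_dvd (p := 5) (by norm_num) (by omega)
  obtain ⟨n, hn1, hn, k3, hk3⟩ := dirichlet (M := 8 * y) (a := -u) (by omega)
    ⟨-5, v, by linarith⟩ 5
  have hn0 : (0 : ℤ) < n := by exact_mod_cast hn.pos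
  have h1 : 4 * (2 * y : ℤ) ∣ ((5 * n : ℕ) : ℤ) + 1 := ⟨5 * k3 + v, by
    push_cast; linear_combination 5 * hk3 - huv⟩
  have hj := jac_of_neg_one_mod hy h1
  obtain ⟨t1, ht1⟩ : ∃ t : ℤ, ((5 : ℕ) : ℤ) ∣ t ^ 2 - 2 * y := by
    rcases h with h | h
    exacts [⟨2, by omega⟩, ⟨1, by omega⟩]
  have hj1 : jacobiSym (2 * y) 5 = 1 :=
    jac_of_sq (coprime_of_prime_not_dvd (p := 5) (by norm_num) (by omega)).symm ht1
  rw [jacobiSym.mul_right' _ (by norm_num) hn.ne_zero, hj1, one_mul] at hj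
  obtain ⟨t2, ht2⟩ := sq_of_jac hn hj
  have hpn : IsCoprime ((5 : ℕ) : ℤ) n :=
    Nat.isCoprime_iff_coprime.mpr ((Nat.coprime_primes (by norm_num) hn).mpr hn1.ne)
  obtain ⟨k, hk⟩ := h1
  push_cast at hk
  obtain ⟨g, s, hg⟩ : Rep ((5 : ℕ) * n : ℤ) (2 * y : ℤ) := by
    refine legendre_rep (2 * y) _ hy (by positivity) ⟨4 * k, -1, by push_cast; linarith⟩ ?_
      ⟨1, 4 * k, by push_cast; linarith⟩
    obtain ⟨t, h3, h4⟩ := crt2 hpn t1 t2
    refine ⟨t, hpn.mul_dvd ?_ ?_⟩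
    · have : t ^ 2 - 2 * y = (t - t1) * (t + t1) + (t1 ^ 2 - 2 * y) := by ring
      rw [this]; exact dvd_add (h3.mul_right _) ht1
    · have : t ^ 2 - 2 * y = (t - t2) * (t + t2) + (t2 ^ 2 - 2 * y) := by ring
      rw [this]; exact dvd_add (h4.mul_right _) ht2
  have h8 : n % 8 = 3 := by
    have : 5 * (n : ℤ) + 1 = 8 * (y * k) := by linarith
    omega
  have hj2 : jacobiSym (-2) n = 1 := by
    rw [jacobiSym.at_neg_two (Nat.odd_iff.2 (by omega)), ZMod.χ₈'_nat_eq_if_mod_eight]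
    simp [h8, show n % 2 ≠ 0 by omega]
  obtain ⟨a, b, hb⟩ : Rep (2 : ℤ) (n : ℤ) := by
    obtain ⟨t, ht⟩ := sq_of_jac hn hj2
    exact legendre_rep n 2 hn0 (by norm_num) ⟨1, -(n / 2), by omega⟩ ⟨1, by omega⟩
      ⟨t, by simpa using ht⟩
  refine int5 (a := 5 * b * s) (b := 5 * a * s / 2) (c := g / 2) ?_
  push_cast at hg hb ⊢
  linear_combination 5 / 2 * hg + 25 / 2 * s ^ 2 * hb

end Pool.Agent.P.MP_2ce53a_nt
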