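import Mathlib

/-!
The list of pairs.
-/

namespace Pool.Agent.P.MP_2ce53a_nt

/-- The list of pairs in the question. -/
def InL (j k : ℕ) : Prop :=
  (j = 3 ∧ ((3 ≤ k ∧ k ≤ 20) ∨ k ∈ [22, 24, 25, 28, 29, 30, 32, 37])) ∨
  (j = 4 ∧ ((4 ≤ k ∧ k ≤ 13) ∨ k ∈ [15, 16, 18] ∨ (20 ≤ k ∧ k ≤ 25) ∨ k ∈ [27, 28, 31, 33, 34])) ∨
  (j = 5 ∧ ((6 ≤ k ∧ k ≤ 12) ∨ k = 20)) ∨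
  (j = 6 ∧ k ∈ [7, 8, 9, 10]) ∨
  (j, k) ∈ [(7, 9), (7, 11), (8, 10), (9, 11)]

end Pool.Agent.P.MP_2ce53a_nt
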