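import Mathlib
import Pool.Agent.P.MP_2ce53a_nt.Test
import Pool.Agent.P.MP_2ce53a_nt.ListL

/-!
Explicit non-represented numbers for the pairs outside the list.
-/

namespace Pool.Agent.P.MP_2ce53a_nt

instance (j k : ℕ) : Decidable (InL j k) := by unfold InL; infer_instance

def Rep (j k n : ℕ) : Prop := ∃ (z : ℤ) (x y : ℕ), (n : ℤ) = genPent z + polyg j x + polyg k y

lemma genPent_nonneg (z : ℤ) : 0 ≤ genPent z := by
  have := two_genPent z
  nlinarith [sq_nonneg (6 * z - 1), sq_nonneg z, Int.le_self_sq z]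

lemma polyg_ge {m : ℕ} (hm : 3 ≤ m) (x : ℕ) : (x : ℤ) * (x + 1) ≤ 2 * polyg m x := by
  have h : (0 : ℤ) ≤ ((m : ℤ) - 3) * (x ^ 2 - x) :=
    mul_nonneg (by omega) (sub_nonneg.2 (Int.le_self_sq _))
  rw [two_polyg]
  linarith

lemma polyg_nonneg {m : ℕ} (hm : 3 ≤ m) (x : ℕ) : 0 ≤ polyg m x := by
  have := polyg_ge hm x
  have : (0 : ℤ) ≤ (x : ℤ) * (x + 1) := by positivity
  linarith

lemma polyg_cut {m K x : ℕ} (hK : 3 ≤ K) (hm : K ≤ m) (h : polyg m x < K) :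
    polyg m x = polyg K x := by
  have h1 := two_polyg m x
  have h2 := two_polyg K x
  rcases (by omega : x = 0 ∨ x = 1 ∨ 2 ≤ x) with rfl | rfl | hx
  · push_cast at h1 h2; linarith
  · push_cast at h1 h2; linarith
  · have a : (2 : ℤ) ≤ x := by exact_mod_cast hx
    have b : (K : ℤ) ≤ m := by exact_mod_cast hm
    have c : (3 : ℤ) ≤ K := by exact_mod_cast hK
    have : (0 : ℤ) ≤ ((m : ℤ) - 2) * ((x - 2) * (x + 1)) :=
      mul_nonneg (by omega) (mul_nonneg (by omega) (by omega))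
    nlinarith

lemma Rep.cut {j k J K n : ℕ} (h : Rep j k n) (hJ : 3 ≤ J) (hK : 3 ≤ K) (hj : J ≤ j) (hk : K ≤ k)
    (h1 : J = j ∨ n < J) (h2 : K = k ∨ n < K) : Rep J K n := by
  obtain ⟨z, x, y, e⟩ := h
  have a := genPent_nonneg z
  have b := polyg_nonneg (hJ.trans hj) x
  have c := polyg_nonneg (hK.trans hk) y
  refine ⟨z, x, y, ?_⟩
  rw [e]
  congr 1
  · congr 1
    rcases h1 with rfl | h1
    · rfl
    · exact polyg_cut hJ hj (by omega)
  · rcases h2 with rfl | h2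
    · rfl
    · exact polyg_cut hK hk (by omega)

/-- The generalized pentagonal numbers below 1000 as a bit mask. -/
def gmask : ℕ :=
  0x40000020000000000010000010000000000020000040000000000200000800000000010000080000000004000040000000008000100000000080002000000004000200000001000100000002000400000020008000001000800000400400000801000008020000402000101000204002080108044090a7

lemma gmask_spec {z : ℤ} (h : genPent z < 1000) : gmask.testBit (genPent z).toNat = true := by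
  have := two_genPent z
  have h1 : -26 ≤ z := by nlinarith
  have h2 : z ≤ 26 := by nlinarith
  have key : ∀ t < 53, genPent ((t : ℕ) - 26) < 1000 →
      gmask.testBit (genPent ((t : ℕ) - 26)).toNat = true := by decide +kernel
  have e : z = ((z + 26).toNat : ℤ) - 26 := by omega
  rw [e] at h ⊢
  exact key _ (by omega) h

def Miss (j k n : ℕ) : Prop :=
  n < 990 ∧ ∀ x < 44, polyg j x ≤ n → ∀ y < 44, polyg j x + polyg k y ≤ n →
    gmask.testBit (n - polyg j x - polyg k y).toNat = false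

instance (j k n : ℕ) : Decidable (Miss j k n) := by unfold Miss; infer_instance

lemma Miss.not_rep {j k n : ℕ} (hj : 3 ≤ j) (hk : 3 ≤ k) (h : Miss j k n) : ¬ Rep j k n := by
  rintro ⟨z, x, y, e⟩
  have a := genPent_nonneg z
  have b := polyg_nonneg hj x
  have c := polyg_nonneg hk y
  have hn : (n : ℤ) < 990 := by exact_mod_cast h.1
  have small : ∀ {m t : ℕ}, 3 ≤ m → polyg m t < 990 → t < 44 := fun {m t} hm ht => by
    have := polyg_ge hm t
    by_contra hc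
    have : (44 : ℤ) ≤ t := by omega
    nlinarith
  have := h.2 x (small hj (by omega)) (by omega) y (small hk (by omega)) (by omega)
  rw [show (n : ℤ) - polyg j x - polyg k y = genPent z by omega, gmask_spec (by omega)] at this
  exact Bool.noConfusion this

/-- A number missed by the pair. -/
def wit (j k : ℕ) : ℕ :=
  (([[0, 0, 0, 0, 0, 0, 0, 0, 0, 0, 0, 0, 0, 0, 0, 0, 0, 0, 0, 0, 0, 490, 0, 65, 0, 0, 65, 109,
    0, 0, 0, 65, 0, 75, 65, 199, 75, 0, 439, 923, 109, 65, 286, 839, 75, 109, 65, 227, 134, 252,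
    109, 65, 134, 150, 273, 273, 65, 0, 285, 134, 109, 75, 571, 319, 150, 109, 65],
   [0, 0, 0, 0, 0, 0, 0, 0, 0, 0, 0, 0, 0, 0, 34, 0, 0, 46, 0, 243, 0, 0, 0, 0, 0, 0, 46, 0, 0,
    234, 414, 0, 399, 0, 0, 34, 34, 34, 34, 34, 34, 34, 34, 34, 34, 34, 34, 34, 34, 34, 34, 34,
    34, 34, 34, 34, 34, 34, 34, 34, 34, 34, 34, 34, 34, 34, 34],
   [0, 0, 0, 0, 0, 33, 0, 0, 0, 0, 0, 0, 0, 68, 60, 33, 84, 81, 154, 65, 0, 81, 33, 55, 33, 55,
    65, 55, 60, 33, 55, 154, 60, 65, 33, 33, 33, 33, 33, 33, 33, 33, 33, 33, 33, 33, 33, 33, 33,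
    33, 33, 33, 33, 33, 33, 33, 33, 33, 33, 33, 33, 33, 33, 33, 33, 33, 33],
   [0, 0, 0, 0, 0, 0, 10, 0, 0, 0, 0, 10, 10, 10, 10, 10, 10, 10, 10, 10, 10, 10, 10, 10, 10,
    10, 10, 10, 10, 10, 10, 10, 10, 10, 10, 10, 10, 10, 10, 10, 10, 10, 10, 10, 10, 10, 10, 10,
    10, 10, 10, 10, 10, 10, 10, 10, 10, 10, 10, 10, 10, 10, 10, 10, 10, 10, 10],
   [0, 0, 0, 0, 0, 0, 0, 11, 32, 0, 38, 0, 11, 11, 11, 11, 11, 11, 11, 11, 11, 11, 11, 11, 11,
    11, 11, 11, 11, 11, 11, 11, 11, 11, 11, 11, 11, 11, 11, 11, 11, 11, 11, 11, 11, 11, 11, 11,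
    11, 11, 11, 11, 11, 11, 11, 11, 11, 11, 11, 11, 11, 11, 11, 11, 11, 11, 11],
   [0, 0, 0, 0, 0, 0, 0, 0, 19, 38, 0, 25, 50, 32, 18, 19, 69, 361, 32, 18, 18, 18, 18, 18, 18,
    18, 18, 18, 18, 18, 18, 18, 18, 18, 18, 18, 18, 18, 18, 18, 18, 18, 18, 18, 18, 18, 18, 18,
    18, 18, 18, 18, 18, 18, 18, 18, 18, 18, 18, 18, 18, 18, 18, 18, 18, 18, 18],
   [0, 0, 0, 0, 0, 0, 0, 0, 0, 43, 158, 0, 96, 33, 18, 19, 20, 34, 38, 18, 18, 18, 18, 18, 18,
    18, 18, 18, 18, 18, 18, 18, 18, 18, 18, 18, 18, 18, 18, 18, 18, 18, 18, 18, 18, 18, 18, 18,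
    18, 18, 18, 18, 18, 18, 18, 18, 18, 18, 18, 18, 18, 18, 18, 18, 18, 18, 18],
   [0, 0, 0, 0, 0, 0, 0, 0, 0, 0, 19, 20, 21, 31, 38, 19, 20, 21, 38, 38, 19, 19, 19, 19, 19,
    19, 19, 19, 19, 19, 19, 19, 19, 19, 19, 19, 19, 19, 19, 19, 19, 19, 19, 19, 19, 19, 19, 19,
    19, 19, 19, 19, 19, 19, 19, 19, 19, 19, 19, 19, 19, 19, 19, 19, 19, 19, 19],
   [0, 0, 0, 0, 0, 0, 0, 0, 0, 0, 0, 10, 10, 10, 10, 10, 10, 10, 10, 10, 10, 10, 10, 10, 10,
    10, 10, 10, 10, 10, 10, 10, 10, 10, 10, 10, 10, 10, 10, 10, 10, 10, 10, 10, 10, 10, 10, 10,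
    10, 10, 10, 10, 10, 10, 10, 10, 10, 10, 10, 10, 10, 10, 10, 10, 10, 10, 10]] : List (List ℕ)).getD (j - 3) []).getD k 0

def Good (j k : ℕ) : Prop :=
  InL j k ∨ (j, k) = (3, 57) ∨
    (Miss j k (wit j k) ∧ (j = 11 → wit j k < 11) ∧ (k = 66 → wit j k < 66))

instance (j k : ℕ) : Decidable (Good j k) := by unfold Good; infer_instance

lemma wit_spec : ∀ j < 12, ∀ k < 67, 3 ≤ j → j ≤ k → Good j k := by
  decide +kernel

theorem only_if {j k : ℕ} (hj : 3 ≤ j) (hjk : j ≤ k) (h : Universal j k) :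
    InL j k ∨ (j, k) = (3, 57) := by
  rcases wit_spec (min j 11) (by omega) (min k 66) (by omega) (by omega) (by omega) with
    a | a | ⟨a, b, c⟩
  · have : j < 11 ∧ k < 66 := by
      simp only [InL, List.mem_cons, Prod.mk.injEq, List.not_mem_nil, or_false] at a
      omega
    rw [min_eq_left (by omega), min_eq_left (by omega)] at a
    exact .inl a
  · simp only [Prod.mk.injEq] at a ⊢
    omega
  · exact absurd (Rep.cut (h _) (by omega) (by omega) (by omega) (by omega) (by omega) (by omega))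
      (a.not_rep (by omega) (by omega))

end Pool.Agent.P.MP_2ce53a_nt
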