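import Mathlib
import Pool.Agent.P.MP_2ce53a_nt.Exist

/-!
From a vector of norm `T` to a primitive one, and the final assembly.
-/

namespace Pool.Agent.P.MP_2ce53a_nt

/-- Every vector not divisible by the prime `l` has an `l`-neighbour of the same kind. -/
def NB (q : F) (l : ℕ) : Prop := ∀ v, ¬ Dv l v → ∃ A, Iso q A l ∧ ¬ Dv l (mv A v)

lemma nb_of {q : F} {l : ℕ} (hl : l.Prime) {c : ℤ} (hc : ¬ (l : ℤ) ∣ c) {w u v : V}
    (hw : q.Q w = c * l) (hu : ∀ t, c * dot u t = q.B w t) (hv : ¬ (l : ℤ) ∣ dot u v) :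
    ∃ A, Iso q A l ∧ ¬ Dv l (mv A v) := by
  have hc0 : c ≠ 0 := by rintro rfl; exact hc (dvd_zero _)
  have hp := Nat.prime_iff_prime_int.mp hl
  let A : M := ⟨⟨l - w.x * u.x, -w.x * u.y, -w.x * u.z⟩, ⟨-w.y * u.x, l - w.y * u.y, -w.y * u.z⟩,
    ⟨-w.z * u.x, -w.z * u.y, l - w.z * u.z⟩⟩
  have hA : ∀ t, mv A t = lc l t (-dot u t) w := fun t => by
    ext <;> simp only [A, mv, lc, dot] <;> ring
  refine ⟨A, fun s t => ?_, fun h => ?_⟩
  · have e : q.B (lc l s (-dot u s) w) (lc l t (-dot u t) w) = l ^ 2 * q.B s t -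
        l * dot u s * q.B w t - l * dot u t * q.B w s + 2 * dot u s * dot u t * q.Q w := by
      simp only [F.B, F.Q, lc]; ring
    rw [hA, hA, e, hw, ← hu, ← hu]; ring
  · rw [hA] at h
    have key : ∀ a b : ℤ, (l : ℤ) ∣ l * a + -dot u v * b → (l : ℤ) ∣ b := fun a b h =>
      (hp.dvd_or_dvd ((dvd_add_right (dvd_mul_right _ _)).1 h)).resolve_left
        (by rwa [dvd_neg])
    obtain ⟨a, ha⟩ := key _ _ h.1
    obtain ⟨b, hb⟩ := key _ _ h.2.1
    obtain ⟨d, hd⟩ := key _ _ h.2.2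
    have e : w = sm l ⟨a, b, d⟩ := by ext <;> simp only [sm] <;> assumption
    rw [e, Q_sm] at hw
    refine hc ⟨q.Q ⟨a, b, d⟩, mul_right_cancel₀ hp.ne_zero ?_⟩
    linear_combination -hw

lemma nb_one {q : F} {l : ℕ} (hl : l.Prime) {v : V}
    (h : ¬ ∀ w, q.Q w = l → (l : ℤ) ∣ q.B w v) : ∃ A, Iso q A l ∧ ¬ Dv l (mv A v) := by
  push Not at h
  obtain ⟨w, hw, hv⟩ := h
  have e : ∀ t, dot ⟨q.B w ⟨1, 0, 0⟩, q.B w ⟨0, 1, 0⟩, q.B w ⟨0, 0, 1⟩⟩ t = q.B w t := fun t => by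
    simp only [dot, F.B]; ring
  exact nb_of hl (c := 1) (w := w) (Nat.prime_iff_prime_int.mp hl).not_dvd_one (by rw [hw, one_mul])
    (fun t => by rw [one_mul, e]) (by rwa [e])

lemma not_dvd_small {l p : ℕ} (hl : l.Prime) (hp : p.Prime) (h : l ≠ p) : ¬ (l : ℤ) ∣ (p : ℤ) :=
  fun c => h ((Nat.prime_dvd_prime_iff_eq hl hp).1 (Int.natCast_dvd_natCast.1 c))

theorem nb2 {l : ℕ} (hl : l.Prime) (h2 : l ≠ 2) : NB F2 l := by
  intro v hv
  have hp := Nat.prime_iff_prime_int.mp hl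
  have n2 : ¬ (l : ℤ) ∣ 2 := not_dvd_small hl Nat.prime_two h2
  have hodd := hl.eq_two_or_odd.resolve_left h2
  obtain ⟨w, hw⟩ := ex2 (2 * l) (by omega)
  by_contra hcon
  have H : ∀ a b c : ℤ, a ^ 2 + b ^ 2 + c ^ 2 = 2 * l → (l : ℤ) ∣ a * v.x + b * v.y + c * v.z := by
    intro a b c h
    by_contra hn
    exact hcon (nb_of hl n2 (w := ⟨a, b, c⟩) (u := ⟨a, b, c⟩)
      (by simp only [F.Q, F2]; push_cast; linarith)
      (fun t => by simp only [F.B, F2, dot]; push_cast; ring) hn)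
  have K : ∀ a b c : ℤ, a ^ 2 + b ^ 2 + c ^ 2 = 2 * l → (l : ℤ) ∣ a := by
    intro a b c h
    by_contra ha
    have f : ∀ t : ℤ, (l : ℤ) ∣ 2 * (a * t) → (l : ℤ) ∣ t := fun t ht =>
      (hp.dvd_or_dvd ((hp.dvd_or_dvd ht).resolve_left n2)).resolve_left ha
    refine hv ⟨f _ ?_, f _ ?_, f _ ?_⟩
    · exact (dvd_add (H a b c h) (H a (-b) (-c) (by linarith))).trans (dvd_of_eq (by ring))
    · exact (dvd_add (H b a c (by linarith)) (H (-b) a (-c) (by linarith))).trans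
        (dvd_of_eq (by ring))
    · exact (dvd_add (H b c a (by linarith)) (H (-b) (-c) a (by linarith))).trans
        (dvd_of_eq (by ring))
  simp only [F.Q, F2] at hw
  push_cast at hw
  obtain ⟨a, ha⟩ := K w.x w.y w.z (by linarith)
  obtain ⟨b, hb⟩ := K w.y w.x w.z (by linarith)
  obtain ⟨c, hc⟩ := K w.z w.y w.x (by linarith)
  refine n2 ⟨a ^ 2 + b ^ 2 + c ^ 2, mul_right_cancel₀ hp.ne_zero ?_⟩
  rw [ha, hb, hc] at hw
  linear_combination -hw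

lemma zero_of_dvd_sq {l : ℕ} (hl : l.Prime) {x : ℤ} (h : (l : ℤ) ∣ x) (h1 : x ^ 2 ≤ l) : x = 0 := by
  refine Int.eq_zero_of_abs_lt_dvd h ?_
  have : (2 : ℤ) ≤ l := by exact_mod_cast hl.two_le
  rw [abs_lt]
  constructor <;> nlinarith

lemma prime_ne_mul_sq {l p : ℕ} (hl : l.Prime) (h : l ≠ p) (x : ℤ) : (l : ℤ) ≠ p * x ^ 2 := by
  intro e
  have e' : l = p * (x.natAbs * x.natAbs) := by
    zify; rw [e, abs_mul_abs_self]; ring
  have h1 : x.natAbs ∣ l := ⟨p * x.natAbs, by rw [e']; ring⟩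
  rcases (Nat.dvd_prime hl).1 h1 with h2 | h2
  · rw [h2] at e'; omega
  · rw [h2] at e'
    have := hl.two_le
    rcases p with _ | p
    · omega
    · nlinarith [Nat.zero_le (p * (l * l))]

theorem nb3 {l : ℕ} (hl : l.Prime) (h2 : l ≠ 2) (h3 : l ≠ 3) : NB F3 l := by
  intro v hv
  have hp := Nat.prime_iff_prime_int.mp hl
  have n2 : ¬ (l : ℤ) ∣ 2 := not_dvd_small hl Nat.prime_two h2
  have n3 : ¬ (l : ℤ) ∣ 3 := not_dvd_small hl Nat.prime_three h3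
  refine nb_one hl fun H0 => ?_
  have H : ∀ a b c : ℤ, a ^ 2 + b ^ 2 + c ^ 2 + b * c = l →
      (l : ℤ) ∣ 2 * a * v.x + (2 * b + c) * v.y + (b + 2 * c) * v.z := by
    intro a b c h
    convert H0 ⟨a, b, c⟩ (by simp only [F.Q, F3]; push_cast; linarith) using 1
    simp only [F.B, F3]; push_cast; ring
  have K : ∀ a b c : ℤ, a ^ 2 + b ^ 2 + c ^ 2 + b * c = l → a = 0 := by
    intro a b c h
    refine zero_of_dvd_sq hl ?_ (by nlinarith [sq_nonneg (b + c), sq_nonneg b, sq_nonneg c])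
    by_contra ha
    have f : ∀ t : ℤ, (l : ℤ) ∣ 2 * (3 * (a * (a * t))) → (l : ℤ) ∣ t := fun t ht =>
      (hp.dvd_or_dvd ((hp.dvd_or_dvd ((hp.dvd_or_dvd ((hp.dvd_or_dvd ht).resolve_left
        n2)).resolve_left n3)).resolve_left ha)).resolve_left ha
    obtain ⟨k1, e1⟩ := H a b c h
    obtain ⟨k2, e2⟩ := H (-a) b c (by linarith)
    obtain ⟨k3, e3⟩ := H a (-c) (b + c) (by linarith)
    obtain ⟨k4, e4⟩ := H (-a) (-c) (b + c) (by linarith)
    refine hv ⟨f _ ((hp.dvd_or_dvd (⟨3 * a * (k1 - k2), ?_⟩ : (l : ℤ) ∣ 2 * _)).resolve_left n2),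
      f _ ⟨6 * v.y - (2 * b + c) * (k1 + k2) + (b + 2 * c) * (k3 + k4), ?_⟩,
      f _ ⟨6 * v.z - (2 * b + c) * (k3 + k4) + (b - c) * (k1 + k2), ?_⟩⟩
    · linear_combination 3 * a * (e1 - e2)
    · linear_combination 6 * v.y * h - (2 * b + c) * (e1 + e2) + (b + 2 * c) * (e3 + e4)
    · linear_combination 6 * v.z * h - (2 * b + c) * (e3 + e4) + (b - c) * (e1 + e2)
  have hl3 : l % 3 ≠ 0 := fun c =>
    h3 ((Nat.prime_dvd_prime_iff_eq Nat.prime_three hl).1 (by omega)).symm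
  obtain ⟨⟨x, y, z⟩, hw⟩ := ex3 l (Or.inl hl3)
  simp only [F.Q, F3] at hw
  push_cast at hw
  obtain rfl := K x y z (by linarith)
  have ne := prime_ne_mul_sq hl h3
  have par : (∃ t, z = 2 * t) ∨ (∃ t, y = 2 * t) ∨ ∃ t, y = z + 2 * t := by
    rcases (by omega : z % 2 = 0 ∨ y % 2 = 0 ∨ (y - z) % 2 = 0) with c | c | c
    exacts [.inl ⟨z / 2, by omega⟩, .inr (.inl ⟨y / 2, by omega⟩),
      .inr (.inr ⟨(y - z) / 2, by omega⟩)]
  rcases par with ⟨t, rfl⟩ | ⟨t, rfl⟩ | ⟨t, rfl⟩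
  · have := K (y + t) (-t) (2 * t) (by linarith)
    exact ne t (by rw [show y = -t by omega] at hw; push_cast; linarith)
  · have := K (z + t) (2 * t) (-t) (by linarith)
    exact ne t (by rw [show z = -t by omega] at hw; push_cast; linarith)
  · have := K t (z + t) (z + t) (by linarith)
    exact ne z (by rw [this] at hw; push_cast; linarith)

theorem nb5 {l : ℕ} (hl : l.Prime) (h2 : l ≠ 2) (h5 : l ≠ 5) : NB F5 l := by
  intro v hv
  have hp := Nat.prime_iff_prime_int.mp hl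
  have n2 : ¬ (l : ℤ) ∣ 2 := not_dvd_small hl Nat.prime_two h2
  have n5 : ¬ (l : ℤ) ∣ 5 := not_dvd_small hl Nat.prime_five h5
  refine nb_one hl fun H0 => ?_
  have H : ∀ a b c : ℤ, a ^ 2 + b ^ 2 + 2 * c ^ 2 + b * c + a * b = l →
      (l : ℤ) ∣ a * (2 * v.x + v.y) + b * (v.x + 2 * v.y + v.z) + c * (v.y + 4 * v.z) := by
    intro a b c h
    convert H0 ⟨a, b, c⟩ (by simp only [F.Q, F5]; push_cast; linarith) using 1
    simp only [F.B, F5]; push_cast; ring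
  have K : ∀ a b c : ℤ, a ^ 2 + b ^ 2 + 2 * c ^ 2 + b * c + a * b = l → c = 0 := by
    intro a b c h
    refine zero_of_dvd_sq hl ?_ (by nlinarith [sq_nonneg (a + b), sq_nonneg (b + c), sq_nonneg a])
    by_contra hc
    have f : ∀ t : ℤ, (l : ℤ) ∣ 5 * (c * (c * t)) → (l : ℤ) ∣ t := fun t ht =>
      (hp.dvd_or_dvd ((hp.dvd_or_dvd ((hp.dvd_or_dvd ht).resolve_left
        n5)).resolve_left hc)).resolve_left hc
    obtain ⟨k1, e1⟩ := H a b c h
    obtain ⟨k2, e2⟩ := H (-a - b) b c (by linarith)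
    obtain ⟨k3, e3⟩ := H a (-a - b - c) c (by linarith)
    obtain ⟨k4, e4⟩ := H (b + c) (-a - b - c) c (by linarith)
    obtain ⟨k5, e5⟩ := H (-a - b) (a - c) c (by linarith)
    obtain ⟨s, hs⟩ := f (2 * v.x + v.y) ⟨3 * (2 * v.x + v.y) -
      (2 * a + b) * (k3 - k4) - (a + 2 * b + c) * (k1 - k2 - k3 + k4), by
        linear_combination 3 * (2 * v.x + v.y) * h - (2 * a + b) * (e3 - e4) -
          (a + 2 * b + c) * (e1 - e2 - e3 + e4)⟩
    obtain ⟨t, ht⟩ := f (v.x + 2 * v.y + v.z) ⟨3 * (v.x + 2 * v.y + v.z) -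
      (a + 2 * b + c) * (k2 - k5) - (2 * a + b) * (k1 - k3 - k2 + k5), by
        linear_combination 3 * (v.x + 2 * v.y + v.z) * h - (a + 2 * b + c) * (e2 - e5) -
          (2 * a + b) * (e1 - e3 - e2 + e5)⟩
    obtain ⟨u, hu⟩ := (hp.dvd_or_dvd (⟨k1 - a * s - b * t, by
      linear_combination e1 - a * hs - b * ht⟩ : (l : ℤ) ∣ c * (v.y + 4 * v.z))).resolve_left hc
    refine hv (Dv.of_B (q := F5) hp (fun e => ?_) fun w => ⟨w.x * s + w.y * t + w.z * u, ?_⟩)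
    · exact (hp.dvd_or_dvd (show (l : ℤ) ∣ 2 * 5 from e)).elim n2 n5
    · simp only [F.B, F5]; push_cast
      linear_combination w.x * hs + w.y * ht + w.z * hu
  have hl5 : l % 5 ≠ 0 := fun c =>
    h5 ((Nat.prime_dvd_prime_iff_eq Nat.prime_five hl).1 (by omega)).symm
  obtain ⟨⟨x, y, z⟩, hw⟩ := ex5a l hl5
  simp only [F.Q, F5] at hw
  push_cast at hw
  obtain rfl := K x y z (by linarith)
  have ne := prime_ne_mul_sq hl hl.ne_one
  have par : (∃ t, y = 2 * t) ∨ (∃ t, x = 2 * t) ∨ ∃ t, y = 2 * t - x := by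
    rcases (by omega : y % 2 = 0 ∨ x % 2 = 0 ∨ (y + x) % 2 = 0) with c | c | c
    exacts [.inl ⟨y / 2, by omega⟩, .inr (.inl ⟨x / 2, by omega⟩),
      .inr (.inr ⟨(y + x) / 2, by omega⟩)]
  rcases par with ⟨t, rfl⟩ | ⟨t, rfl⟩ | ⟨t, rfl⟩
  · have := K x (2 * t) (-t) (by linarith)
    exact ne x (by rw [show t = 0 by omega] at hw; push_cast; linarith)
  · have := K t (y + t) (-t) (by linarith)
    exact ne y (by rw [show t = 0 by omega] at hw; push_cast; linarith)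
  · have := K x (t - x) t (by linarith)
    exact ne x (by rw [this] at hw; push_cast; linarith)

theorem exists_prim {q : F} {W : ℕ} (hq : q.disc ∣ W)
    (hnb : ∀ l : ℕ, l.Prime → ¬ l ∣ W → NB q l) {v : V} (hv : q.Q v ≠ 0) :
    ∃ w, q.Q w = q.Q v ∧ Prim W w := by
  have key : ∀ c : ℕ, c ≠ 0 → ∀ v, Prim W v → ∃ w, q.Q w = c ^ 2 * q.Q v ∧ Prim W w := by
    intro c
    induction c using induction_on_primes with
    | zero => exact fun h => absurd rfl h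
    | one => exact fun _ v hv => ⟨v, by simp, hv⟩
    | prime_mul p a hp ih =>
      intro h v hv
      obtain ⟨w, h1, h2⟩ := ih (right_ne_zero_of_mul h) v hv
      by_cases hW : p ∣ W
      · refine ⟨sm p w, by rw [Q_sm, h1]; push_cast; ring, fun l hl hlW hd => h2 l hl hlW ?_⟩
        have hl' := Nat.prime_iff_prime_int.mp hl
        have n := not_dvd_small hl hp (by rintro rfl; exact hlW hW)
        exact ⟨(hl'.dvd_or_dvd hd.1).resolve_left n, (hl'.dvd_or_dvd hd.2.1).resolve_left n,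
          (hl'.dvd_or_dvd hd.2.2).resolve_left n⟩
      · obtain ⟨A, a1, a2⟩ := hnb p hp hW w (h2 p hp hW)
        refine ⟨mv A w, by rw [a1.Q, h1]; push_cast; ring, fun l hl hlW hd => ?_⟩
        by_cases e : l = p
        · exact a2 (e ▸ hd)
        · have hl' := Nat.prime_iff_prime_int.mp hl
          refine h2 l hl hlW (Dv.of_B (q := q) hl' (fun c => hlW ?_) fun u => ?_)
          · exact_mod_cast c.trans hq
          · exact (hl'.dvd_or_dvd (a1 u w ▸ hd.B _)).resolve_left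
              fun c => not_dvd_small hl hp e (hl'.dvd_of_dvd_pow c)
  have d1 : (gcd3 v : ℤ) ∣ v.x :=
    Int.natCast_dvd.2 ((Nat.gcd_dvd_left _ _).trans (Nat.gcd_dvd_left _ _))
  have d2 : (gcd3 v : ℤ) ∣ v.y :=
    Int.natCast_dvd.2 ((Nat.gcd_dvd_left _ _).trans (Nat.gcd_dvd_right _ _))
  have d3 : (gcd3 v : ℤ) ∣ v.z := Int.natCast_dvd.2 (Nat.gcd_dvd_right _ _)
  obtain ⟨y, hy⟩ := gcd3_bezout v
  generalize gcd3 v = g at *
  obtain ⟨a, ha⟩ := d1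
  obtain ⟨b, hb⟩ := d2
  obtain ⟨c, hc⟩ := d3
  have e : v = sm g ⟨a, b, c⟩ := by ext <;> simp only [sm] <;> assumption
  have hg : g ≠ 0 := by
    rintro rfl
    rw [e, Q_sm] at hv
    simp at hv
  obtain ⟨w, h1, h2⟩ := key g hg ⟨a, b, c⟩ (fun l hl _ ⟨⟨a', ha'⟩, ⟨b', hb'⟩, ⟨c', hc'⟩⟩ => by
    refine (Nat.prime_iff_prime_int.mp hl).not_dvd_one ⟨dot y ⟨a', b', c'⟩, ?_⟩
    apply mul_left_cancel₀ (show (g : ℤ) ≠ 0 by exact_mod_cast hg)
    simp only [dot] at hy ha' hb' hc' ⊢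
    rw [ha, hb, hc, ha', hb', hc'] at hy
    linear_combination -hy)
  exact ⟨w, by rw [h1, e, Q_sm], h2⟩

/-- The level is built from the primes of the list, whose squares never divide the norm. -/
def sqOK (C : Ctx) (ps : List ℕ) : Prop :=
  C.W ∣ ps.prod ^ 250 ∧ ∀ p ∈ ps, p.Prime ∧ p ∣ C.W ∧
    ((p ∣ C.Mo ∧ ¬ p ∣ C.T0) ∨ (p ^ 2 ∣ C.Mo ∧ ¬ p ^ 2 ∣ C.T0))

instance (C : Ctx) (ps : List ℕ) : Decidable (sqOK C ps) := by unfold sqOK; infer_instance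

theorem universal_of {C : Ctx} {ps : List ℕ} {N : ℕ} (ok : C.okB = true) (pos : C.q.Pos)
    (hsq : sqOK C ps) (hT : C.T0 ≠ 0)
    (hnb : ∀ l : ℕ, l.Prime → (∀ p ∈ ps, l ≠ p) → NB C.q l)
    (hex : ∀ n : ℕ, ∃ w, C.q.Q w = (C.T0 + C.Mo * n : ℕ))
    (hroot : cellOf C N = ⟨0, 0, 0, 1, 0, 0, 1, 0, 1⟩)
    (hall : ∀ n, Hyp C n → ∀ c < N + 1, Emp C n c) : Universal C.j C.k := by
  intro n
  by_contra hn
  have H : Hyp C n := ⟨ok, pos, hn, fun l hl hW h => by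
    obtain ⟨p, hp, hlp⟩ := (Prime.dvd_prod_iff hl.prime).1 (hl.dvd_of_dvd_pow (hW.trans hsq.1))
    obtain ⟨a1, -, a2⟩ := hsq.2 p hp
    obtain rfl := (Nat.prime_dvd_prime_iff_eq hl a1).1 hlp
    have h' : l ^ 2 ∣ C.T0 + C.Mo * n := by exact_mod_cast h
    rcases a2 with ⟨b1, b2⟩ | ⟨b1, b2⟩
    · exact b2 ((Nat.dvd_add_left (b1.mul_right n)).1 ((dvd_pow_self l two_ne_zero).trans h'))
    · exact b2 ((Nat.dvd_add_left (b1.mul_right n)).1 h')⟩
  obtain ⟨v, hv⟩ := hex n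
  obtain ⟨w, h1, h2⟩ := exists_prim H.num.2.2.2.1 (fun l hl hW => hnb l hl fun p hp e =>
    hW (e ▸ (hsq.2 p hp).2.1)) (v := v) (by rw [hv]; exact_mod_cast (by omega))
  refine hall n H N (by omega) w ⟨by rw [h1, hv]; push_cast; rfl, h2⟩ ?_
  rw [hroot]
  exact ⟨w.x, w.y, w.z, by simp, by simp, by simp⟩

end Pool.Agent.P.MP_2ce53a_nt
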